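import Mathlib

/-!
# Ill-posedness of the KdV initial-boundary value problems: definitions
-/

open MeasureTheory Set Filter Topology intervalIntegral
open scoped Interval ENNReal FourierTransform SchwartzMap

namespace Pool.Agent.Helper420.KdVIll

/-- the real constants `a_ij`, `b_ij` of the boundary operators -/
structure Coeffs where
  a10 : ℝ
  a11 : ℝ
  a20 : ℝ
  a21 : ℝ
  a30 : ℝ
  b10 : ℝ
  b20 : ℝ
  b30 : ℝ

/-- the `j`-th derivative of `v` on `[0,L]` at `x` (one-sided at the end points) -/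
noncomputable def dx (L : ℝ) (j : ℕ) (v : ℝ → ℝ) (x : ℝ) : ℝ :=
  iteratedDerivWithin j v (Icc 0 L) x

/-- the boundary operator `𝓑_k`, `k = 1,2,3,4` -/
noncomputable def bdry (k : ℕ) (c : Coeffs) (L : ℝ) (v : ℝ → ℝ) : Fin 3 → ℝ :=
  match k with
  | 1 => ![v 0, v L, dx L 1 v L]
  | 2 => ![v 0,
           dx L 1 v L + c.b30 * v L,
           dx L 2 v L + (c.a21 * dx L 1 v 0 + c.b20 * v L)]
  | 3 => ![dx L 2 v 0 + (c.a10 * v 0 + c.a11 * dx L 1 v 0),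
           v L,
           dx L 1 v L + c.a30 * v 0]
  | _ => ![dx L 2 v 0 + (c.a10 * v 0 + c.a11 * dx L 1 v 0 + c.b10 * v L),
           dx L 1 v L + (c.a30 * v 0 + c.b30 * v L),
           dx L 2 v L + (c.a20 * v 0 + c.a21 * dx L 1 v 0 + c.b20 * v L)]

/-- the order of the leading derivative in the `j`-th component of `𝓑_k` -/
def ord (k : ℕ) : Fin 3 → ℕ :=
  match k with
  | 1 => ![0, 0, 1]
  | 2 => ![0, 1, 2]
  | 3 => ![2, 0, 1]
  | _ => ![2, 1, 2]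

/-- `u` (written `u t x`) is a classical solution on `[0,T) × [0,L]` of the problem with boundary
operator `𝓑_k`, initial value `φ` and boundary data `h`: the time derivative and the first three
space derivatives exist and are jointly continuous up to the boundary, and the equation, the
initial condition and the boundary conditions hold. -/
structure IsSolution (k : ℕ) (c : Coeffs) (L T : ℝ) (φ : ℝ → ℝ) (h : Fin 3 → ℝ → ℝ)
    (u : ℝ → ℝ → ℝ) : Prop where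
  diff_t : ∀ x ∈ Icc 0 L, DifferentiableOn ℝ (fun t => u t x) (Ico 0 T)
  diff_x : ∀ t ∈ Ico 0 T, ContDiffOn ℝ 3 (u t) (Icc 0 L)
  cont_t : ContinuousOn (fun z : ℝ × ℝ => derivWithin (fun t => u t z.2) (Ico 0 T) z.1)
    (Ico 0 T ×ˢ Icc 0 L)
  cont_x : ∀ j ≤ 3, ContinuousOn (fun z : ℝ × ℝ => dx L j (u z.1) z.2) (Ico 0 T ×ˢ Icc 0 L)
  pde : ∀ t ∈ Ico 0 T, ∀ x ∈ Icc 0 L,
    derivWithin (fun τ => u τ x) (Ico 0 T) t + dx L 1 (u t) x + dx L 3 (u t) x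
      + u t x * dx L 1 (u t) x = 0
  init : ∀ x ∈ Icc 0 L, u 0 x = φ x
  bc : ∀ t ∈ Ico 0 T, bdry k c L (u t) = fun j => h j t

/-- the compatibility conditions of every order at `t = 0`: the successive time derivatives
`ψ n` of a smooth solution at `t = 0`, computed from `φ` through the equation, satisfy
`𝓑_k (ψ n) = h⁽ⁿ⁾(0)`. -/
def Compatible (k : ℕ) (c : Coeffs) (L : ℝ) (φ : ℝ → ℝ) (h : Fin 3 → ℝ → ℝ) : Prop :=
  ∃ ψ : ℕ → ℝ → ℝ, (∀ n, ContDiffOn ℝ ((⊤ : ℕ∞) : WithTop ℕ∞) (ψ n) (Icc 0 L)) ∧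
    (∀ x ∈ Icc 0 L, ψ 0 x = φ x) ∧
    (∀ n, ∀ x ∈ Icc 0 L, ψ (n + 1) x = -(dx L 1 (ψ n) x + dx L 3 (ψ n) x
      + ∑ j ∈ Finset.range (n + 1), (n.choose j : ℝ) * ψ j x * dx L 1 (ψ (n - j)) x)) ∧
    ∀ n, bdry k c L (ψ n) = fun j => iteratedDeriv n (h j) 0

/-- the tempered distribution `F` on the line restricts to the function `f` on `(0,ℓ)` -/
def Extends (ℓ : ℝ) (f : ℝ → ℝ) (F : 𝓢'(ℝ, ℂ)) : Prop :=
  ∀ ψ : 𝓢(ℝ, ℂ), tsupport ψ ⊆ Ioo 0 ℓ → F ψ = ∫ x in (0:ℝ)..ℓ, (f x : ℂ) * ψ x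

/-- the `H^s(0,ℓ)` norm, for any real `s`, of the distribution on `(0,ℓ)` given by the function `f`:
the infimum of the `H^s(ℝ)` norms of the tempered distributions on the line extending it. -/
noncomputable def sobNorm (s ℓ : ℝ) (f : ℝ → ℝ) : ℝ≥0∞ :=
  ⨅ (F : 𝓢'(ℝ, ℂ)) (_ : Extends ℓ f F) (g : Lp ℂ 2 (volume : Measure ℝ))
    (_ : TemperedDistribution.besselPotential ℝ ℂ s F = (g : 𝓢'(ℝ, ℂ))), ‖g‖ₑ

/-- Local well-posedness in `H^s(0,L)`, tested on smooth compatible data only: for all smooth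
compatible data `(φ₀,h₀)` there are `T > 0` and a classical solution `u₀` on `[0,T)`, and for every
`ε > 0` there is `δ > 0` such that, for all smooth compatible data `(φ,h)` which are `δ`-close to
`(φ₀,h₀)` in `H^s(0,L) × ∏ H^{(s+1-j)/3}(0,T)`, the classical solution `u` exists on `[0,T)`, or at
least as long as its `L²(0,L)` norm stays bounded, and is `ε`-close to `u₀` in `H^s(0,L)`, uniformly
in time. -/
def LocallyWellPosed (k : ℕ) (c : Coeffs) (L s : ℝ) : Prop :=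
  ∀ (φ₀ : ℝ → ℝ) (h₀ : Fin 3 → ℝ → ℝ), ContDiffOn ℝ ((⊤ : ℕ∞) : WithTop ℕ∞) φ₀ (Icc 0 L) →
    (∀ j, ContDiff ℝ ((⊤ : ℕ∞) : WithTop ℕ∞) (h₀ j)) → Compatible k c L φ₀ h₀ →
    ∃ T, 0 < T ∧ ∃ u₀, IsSolution k c L T φ₀ h₀ u₀ ∧
      ∀ ε : ℝ, 0 < ε → ∃ δ : ℝ, 0 < δ ∧ ∀ (φ : ℝ → ℝ) (h : Fin 3 → ℝ → ℝ),
        ContDiffOn ℝ ((⊤ : ℕ∞) : WithTop ℕ∞) φ (Icc 0 L) →
        (∀ j, ContDiff ℝ ((⊤ : ℕ∞) : WithTop ℕ∞) (h j)) → Compatible k c L φ h →
        sobNorm s L (fun x => φ x - φ₀ x) < ENNReal.ofReal δ →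
        (∀ j, sobNorm ((s + 1 - ord k j) / 3) T (fun t => h j t - h₀ j t) < ENNReal.ofReal δ) →
        ∃ T', 0 < T' ∧ T' ≤ T ∧ ∃ u, IsSolution k c L T' φ h u ∧
          (T' < T → ∀ B : ℝ, ∃ t ∈ Ico 0 T', B < ∫ x in (0:ℝ)..L, u t x ^ 2) ∧
          ∀ t ∈ Ico 0 T', sobNorm s L (fun x => u t x - u₀ t x) < ENNReal.ofReal ε

end Pool.Agent.Helper420.KdVIll
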