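import Pool.Agent.Helper420.KdVIll.Defs

/-!
# Ill-posedness of the KdV initial-boundary value problems: proofs
-/

open MeasureTheory Set Filter Topology intervalIntegral
open scoped Interval ENNReal FourierTransform SchwartzMap

namespace Pool.Agent.Helper420.KdVIll



/-- differentiation under the integral sign for jointly continuous derivative -/
lemma hasDerivAt_param {F F' : ℝ → ℝ → ℝ} {a b L t₀ : ℝ} (hL : 0 ≤ L) (ht : t₀ ∈ Ioo a b)
    (hF : ContinuousOn (fun z : ℝ × ℝ => F z.1 z.2) (Ioo a b ×ˢ Icc 0 L))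
    (hF' : ContinuousOn (fun z : ℝ × ℝ => F' z.1 z.2) (Ioo a b ×ˢ Icc 0 L))
    (hd : ∀ t ∈ Ioo a b, ∀ x ∈ Icc 0 L, HasDerivAt (fun t => F t x) (F' t x) t) :
    HasDerivAt (fun t => ∫ x in (0:ℝ)..L, F t x) (∫ x in (0:ℝ)..L, F' t₀ x) t₀ := by
  obtain ⟨ε, hε, hball⟩ := Metric.isOpen_iff.1 isOpen_Ioo t₀ ht
  have hsub : Icc (t₀ - ε / 2) (t₀ + ε / 2) ⊆ Ioo a b := by
    intro y hy
    apply hball
    rw [Metric.mem_ball, Real.dist_eq, abs_lt]
    constructor <;> linarith [hy.1, hy.2]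
  have hcomp : IsCompact (Icc (t₀ - ε / 2) (t₀ + ε / 2) ×ˢ Icc 0 L) :=
    isCompact_Icc.prod isCompact_Icc
  obtain ⟨M, hM⟩ := hcomp.exists_bound_of_continuousOn
    (hF'.mono (prod_mono hsub (subset_refl _)))
  have hnhds : Icc (t₀ - ε / 2) (t₀ + ε / 2) ∈ 𝓝 t₀ := Icc_mem_nhds (by linarith) (by linarith)
  have hsec : ∀ t ∈ Ioo a b, ∀ {G : ℝ → ℝ → ℝ}, ContinuousOn (fun z : ℝ × ℝ => G z.1 z.2) (Ioo a b ×ˢ Icc 0 L) →
      ContinuousOn (G t) (Icc 0 L) := by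
    intro t ht G hG
    exact hG.comp (f := fun x => (t, x)) (by fun_prop) (fun x hx => ⟨ht, hx⟩)
  have huI : Ι 0 L ⊆ Icc 0 L := by
    rw [uIoc_of_le hL]; exact Ioc_subset_Icc_self
  refine (intervalIntegral.hasDerivAt_integral_of_dominated_loc_of_deriv_le (F := F) (F' := F')
    (bound := fun _ => M) hnhds ?_ ?_ ?_ ?_ ?_ ?_).2
  · filter_upwards [hnhds] with t ht'
    exact ((hsec t (hsub ht') hF).mono huI).aestronglyMeasurable measurableSet_uIoc
  · exact (hsec t₀ ht hF).intervalIntegrable_of_Icc hL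
  · exact ((hsec t₀ ht hF').mono huI).aestronglyMeasurable measurableSet_uIoc
  · refine Eventually.of_forall fun x hx t ht' => ?_
    exact hM (t, x) ⟨ht', huI hx⟩
  · exact intervalIntegrable_const
  · refine Eventually.of_forall fun x hx t ht' => ?_
    exact hd t (hsub ht') x (huI hx)



/-- continuity of a parametric integral on a compact rectangle -/
lemma continuousOn_param {F : ℝ → ℝ → ℝ} {a b L : ℝ} (hab : a ≤ b) (hL : 0 ≤ L)
    (hF : ContinuousOn (fun z : ℝ × ℝ => F z.1 z.2) (Icc a b ×ˢ Icc 0 L)) :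
    ContinuousOn (fun t => ∫ x in (0:ℝ)..L, F t x) (Icc a b) := by
  let G : ℝ → ℝ → ℝ := fun t x => F (projIcc a b hab t) (projIcc 0 L hL x)
  have hG : Continuous (Function.uncurry G) := by
    have h1 : Continuous (fun z : ℝ × ℝ => ((projIcc a b hab z.1 : ℝ), (projIcc 0 L hL z.2 : ℝ))) := by
      fun_prop
    exact hF.comp_continuous h1 (fun z => ⟨(projIcc a b hab z.1).2, (projIcc 0 L hL z.2).2⟩)
  have hc := continuous_parametric_intervalIntegral_of_continuous' (μ := volume) hG 0 L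
  refine hc.continuousOn.congr ?_
  intro t ht
  apply intervalIntegral.integral_congr
  intro x hx
  rw [uIcc_of_le hL] at hx
  simp only [G]
  rw [projIcc_of_mem hab ht, projIcc_of_mem hL hx]

/-- the data of a `C³` function on `[0,L]` -/
structure C3 (L : ℝ) (z p q r : ℝ → ℝ) : Prop where
  h1 : ∀ x ∈ Icc 0 L, HasDerivWithinAt z (p x) (Icc 0 L) x
  h2 : ∀ x ∈ Icc 0 L, HasDerivWithinAt p (q x) (Icc 0 L) x
  h3 : ∀ x ∈ Icc 0 L, HasDerivWithinAt q (r x) (Icc 0 L) x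
  hr : ContinuousOn r (Icc 0 L)

namespace C3
variable {L : ℝ} {z p q r : ℝ → ℝ}

lemma cz (h : C3 L z p q r) : ContinuousOn z (Icc 0 L) := fun x hx => (h.h1 x hx).continuousWithinAt
lemma cp (h : C3 L z p q r) : ContinuousOn p (Icc 0 L) := fun x hx => (h.h2 x hx).continuousWithinAt
lemma cq (h : C3 L z p q r) : ContinuousOn q (Icc 0 L) := fun x hx => (h.h3 x hx).continuousWithinAt
end C3

/-- fundamental theorem of calculus for one-sided derivatives on `[0,L]` -/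
lemma ftc {L : ℝ} (hL : 0 ≤ L) {G g : ℝ → ℝ} (hG : ∀ x ∈ Icc 0 L, HasDerivWithinAt G (g x) (Icc 0 L) x)
    (hg : ContinuousOn g (Icc 0 L)) : ∫ x in (0:ℝ)..L, g x = G L - G 0 := by
  apply integral_eq_sub_of_hasDerivAt_of_le hL (fun x hx => (hG x hx).continuousWithinAt)
  · intro x hx
    exact (hG x (Ioo_subset_Icc_self hx)).hasDerivAt (Icc_mem_nhds hx.1 hx.2)
  · exact hg.intervalIntegrable_of_Icc hL

lemma energy_identity {L : ℝ} (hL : 0 ≤ L) {z p q r : ℝ → ℝ} (h : C3 L z p q r) :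
    ∫ x in (0:ℝ)..L, (-(2 * (1 + x) * z x * (r x + p x)) + 3 * p x ^ 2 - z x ^ 2) =
      -2 * (1 + L) * z L * q L + (1 + L) * p L ^ 2 + 2 * z L * p L - (1 + L) * z L ^ 2
        + 2 * z 0 * q 0 - p 0 ^ 2 - 2 * z 0 * p 0 + z 0 ^ 2 := by
  have cz := h.cz
  have cp := h.cp
  have cq := h.cq
  have cr := h.hr
  have key := ftc hL (G := fun x => -(2 * (1 + x) * z x * q x - (1 + x) * p x ^ 2 - 2 * z x * p x
    + (1 + x) * z x ^ 2)) (g := fun x => (-(2 * (1 + x) * z x * (r x + p x)) + 3 * p x ^ 2 - z x ^ 2)) ?_ ?_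
  · rw [key]; ring
  · intro x hx
    have hx1 : HasDerivWithinAt (fun x : ℝ => 1 + x) 1 (Icc 0 L) x := by
      simpa using (hasDerivWithinAt_id x (Icc 0 L)).const_add 1
    have d := ((((hx1.const_mul 2).mul (h.h1 x hx)).mul (h.h3 x hx)).sub
      (hx1.mul ((h.h2 x hx).pow 2))).sub (((h.h1 x hx).const_mul 2).mul (h.h2 x hx))
    have d2 := (d.add (hx1.mul ((h.h1 x hx).pow 2))).neg
    refine (d2.congr_deriv ?_).congr (fun y hy => ?_) ?_
    · simp; ring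
    · simp [Pi.mul_apply, Pi.sub_apply, Pi.add_apply]
    · simp [Pi.mul_apply, Pi.sub_apply, Pi.add_apply]
  · fun_prop


lemma young_aux {L ε x z p : ℝ} (hL : 0 < L) (hε : 0 < ε) (hx0 : -L ≤ x) (hxL : x ≤ L) :
    2 * x * z * p ≤ L * (ε * p ^ 2 + z ^ 2 / ε) := by
  have h1 : 2 * x * z * p ≤ 2 * L * (|z| * |p|) := by
    have : 2 * x * z * p ≤ |2 * x * z * p| := le_abs_self _
    have h2 : |2 * x * z * p| = 2 * |x| * (|z| * |p|) := by
      rw [abs_mul, abs_mul, abs_mul]; simp; ring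
    have h3 : |x| ≤ L := abs_le.2 ⟨hx0, hxL⟩
    calc 2 * x * z * p ≤ 2 * |x| * (|z| * |p|) := by rw [← h2]; exact this
      _ ≤ 2 * L * (|z| * |p|) := by gcongr
  have h4 : 2 * (|z| * |p|) ≤ ε * p ^ 2 + z ^ 2 / ε := by
    have h5 : 0 ≤ (ε * |p| - |z|) ^ 2 / ε := by positivity
    have h6 : (ε * |p| - |z|) ^ 2 / ε = ε * p ^ 2 + z ^ 2 / ε - 2 * (|z| * |p|) := by
      field_simp
      rw [← sq_abs p, ← sq_abs z]; ring
    linarith
  calc 2 * x * z * p ≤ L * (2 * (|z| * |p|)) := by linarith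
    _ ≤ L * (ε * p ^ 2 + z ^ 2 / ε) := by gcongr

/-- trace inequality at the right end -/
lemma trace_right {L : ℝ} (hL : 0 < L) {z p q r : ℝ → ℝ} (h : C3 L z p q r) {ε : ℝ} (hε : 0 < ε) :
    z L ^ 2 ≤ ∫ x in (0:ℝ)..L, (ε * p x ^ 2 + (1 / L + 1 / ε) * z x ^ 2) := by
  have cz := h.cz
  have cp := h.cp
  have key := ftc hL.le (G := fun x => x * z x ^ 2) (g := fun x => z x ^ 2 + 2 * x * z x * p x) ?_ ?_
  · have h1 : ∫ x in (0:ℝ)..L, (z x ^ 2 + 2 * x * z x * p x) ≤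
        ∫ x in (0:ℝ)..L, (L * (ε * p x ^ 2 + (1 / L + 1 / ε) * z x ^ 2)) := by
      apply intervalIntegral.integral_mono_on hL.le
      · apply ContinuousOn.intervalIntegrable_of_Icc hL.le; fun_prop
      · apply ContinuousOn.intervalIntegrable_of_Icc hL.le; fun_prop
      · intro x hx
        have := young_aux (z := z x) (p := p x) hL hε (by linarith [hx.1]) hx.2
        have e : L * (ε * p x ^ 2 + (1 / L + 1 / ε) * z x ^ 2) = z x ^ 2 + L * (ε * p x ^ 2 + z x ^ 2 / ε) := by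
          field_simp
          ring
        rw [e]; linarith
    rw [key, intervalIntegral.integral_const_mul] at h1
    simp only [zero_mul, sub_zero] at h1
    exact le_of_mul_le_mul_left h1 hL
  · intro x hx
    have d := (hasDerivWithinAt_id x (Icc 0 L)).mul ((h.h1 x hx).pow 2)
    refine (d.congr_deriv ?_).congr (fun y hy => ?_) ?_
    · simp; ring
    · simp
    · simp
  · fun_prop

/-- trace inequality at the left end -/
lemma trace_left {L : ℝ} (hL : 0 < L) {z p q r : ℝ → ℝ} (h : C3 L z p q r) {ε : ℝ} (hε : 0 < ε) :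
    z 0 ^ 2 ≤ ∫ x in (0:ℝ)..L, (ε * p x ^ 2 + (1 / L + 1 / ε) * z x ^ 2) := by
  have cz := h.cz
  have cp := h.cp
  have key := ftc hL.le (G := fun x => (x - L) * z x ^ 2)
    (g := fun x => z x ^ 2 + 2 * (x - L) * z x * p x) ?_ ?_
  · have h1 : ∫ x in (0:ℝ)..L, (z x ^ 2 + 2 * (x - L) * z x * p x) ≤
        ∫ x in (0:ℝ)..L, (L * (ε * p x ^ 2 + (1 / L + 1 / ε) * z x ^ 2)) := by
      apply intervalIntegral.integral_mono_on hL.le
      · apply ContinuousOn.intervalIntegrable_of_Icc hL.le; fun_prop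
      · apply ContinuousOn.intervalIntegrable_of_Icc hL.le; fun_prop
      · intro x hx
        have := young_aux (z := z x) (p := p x) (x := x - L) hL hε (by linarith [hx.1]) (by linarith [hx.2])
        have e : L * (ε * p x ^ 2 + (1 / L + 1 / ε) * z x ^ 2) = z x ^ 2 + L * (ε * p x ^ 2 + z x ^ 2 / ε) := by
          field_simp
          ring
        rw [e]; linarith
    rw [key, intervalIntegral.integral_const_mul] at h1
    simp only [sub_self, zero_mul, zero_sub, neg_mul, sub_neg_eq_add, zero_add] at h1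
    exact le_of_mul_le_mul_left h1 hL
  · intro x hx
    have d := ((hasDerivWithinAt_id x (Icc 0 L)).sub_const L).mul ((h.h1 x hx).pow 2)
    refine (d.congr_deriv ?_).congr (fun y hy => ?_) ?_
    · simp; ring
    · simp
    · simp
  · fun_prop



lemma quad_le (α β γ x y : ℝ) :
    α * x ^ 2 + 2 * β * (x * y) + γ * y ^ 2 ≤ (|α| + |β| + |γ|) * (x ^ 2 + y ^ 2) := by
  have h1 : α * x ^ 2 ≤ |α| * x ^ 2 := by gcongr; exact le_abs_self _
  have h2 : γ * y ^ 2 ≤ |γ| * y ^ 2 := by gcongr; exact le_abs_self _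
  have h3 : 2 * β * (x * y) ≤ |β| * (x ^ 2 + y ^ 2) := by
    have h4 : 2 * β * (x * y) ≤ |2 * β * (x * y)| := le_abs_self _
    have h5 : |2 * β * (x * y)| = |β| * (2 * (|x| * |y|)) := by
      rw [abs_mul, abs_mul, abs_mul]; simp; ring
    have h6 : 2 * (|x| * |y|) ≤ x ^ 2 + y ^ 2 := by
      nlinarith [sq_nonneg (|x| - |y|), sq_abs x, sq_abs y]
    calc 2 * β * (x * y) ≤ |β| * (2 * (|x| * |y|)) := by rw [← h5]; exact h4
      _ ≤ |β| * (x ^ 2 + y ^ 2) := by gcongr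
  nlinarith [abs_nonneg α, abs_nonneg β, abs_nonneg γ, sq_nonneg x, sq_nonneg y,
    mul_nonneg (abs_nonneg α) (sq_nonneg y), mul_nonneg (abs_nonneg γ) (sq_nonneg x)]

lemma boundary_core (a10 a11 a20 a21 a30 b10 b20 b30 L : ℝ) :
    ∃ C, 0 ≤ C ∧ ∀ z0 p0 q0 zL pL qL : ℝ,
      z0 * q0 = -(z0 * (a10 * z0 + a11 * p0 + b10 * zL)) →
      zL * qL = -(zL * (a20 * z0 + a21 * p0 + b20 * zL)) →
      pL = -(a30 * z0 + b30 * zL) →
      -2 * (1 + L) * zL * qL + (1 + L) * pL ^ 2 + 2 * zL * pL - (1 + L) * zL ^ 2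
        + 2 * z0 * q0 - p0 ^ 2 - 2 * z0 * p0 + z0 ^ 2 ≤ C * (z0 ^ 2 + zL ^ 2) := by
  set m := (1 + L) * a21
  set n := a11 + 1
  refine ⟨|n ^ 2 + (1 + L) * a30 ^ 2 - 2 * a10 + 1|
    + |(1 + L) * a20 - m * n + (1 + L) * a30 * b30 - a30 - b10|
    + |m ^ 2 + 2 * (1 + L) * b20 + (1 + L) * b30 ^ 2 - 2 * b30 - (1 + L)|, by positivity, ?_⟩
  intro z0 p0 q0 zL pL qL h1 h2 h3
  refine le_trans ?_ (quad_le _ _ _ z0 zL)
  subst h3
  have h4 : -p0 ^ 2 + 2 * p0 * (m * zL - n * z0) ≤ (m * zL - n * z0) ^ 2 := by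
    nlinarith [sq_nonneg (p0 - (m * zL - n * z0))]
  have e1 : -2 * (1 + L) * zL * qL = 2 * (1 + L) * (zL * (a20 * z0 + a21 * p0 + b20 * zL)) := by
    have : -2 * (1 + L) * zL * qL = -2 * (1 + L) * (zL * qL) := by ring
    rw [this, h2]; ring
  have e2 : 2 * z0 * q0 = -2 * (z0 * (a10 * z0 + a11 * p0 + b10 * zL)) := by
    have : 2 * z0 * q0 = 2 * (z0 * q0) := by ring
    rw [this, h1]; ring
  rw [e1, e2]
  simp only [m, n] at h4 ⊢
  nlinarith [h4]


/-- spatial energy inequality with weight `1 + x` for homogeneous boundary conditions -/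
lemma energy_bound (a10 a11 a20 a21 a30 b10 b20 b30 : ℝ) {L : ℝ} (hL : 0 < L) :
    ∃ C, 0 ≤ C ∧ ∀ z p q r : ℝ → ℝ, C3 L z p q r →
      z 0 * q 0 = -(z 0 * (a10 * z 0 + a11 * p 0 + b10 * z L)) →
      z L * q L = -(z L * (a20 * z 0 + a21 * p 0 + b20 * z L)) →
      p L = -(a30 * z 0 + b30 * z L) →
      ∫ x in (0:ℝ)..L, (-(2 * (1 + x) * z x * (r x + p x))) ≤
        ∫ x in (0:ℝ)..L, (-2 * p x ^ 2 + C * z x ^ 2) := by
  obtain ⟨B, hB0, hB⟩ := boundary_core a10 a11 a20 a21 a30 b10 b20 b30 L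
  set ε : ℝ := 1 / (2 * B + 2) with hε
  have hεpos : 0 < ε := by positivity
  set K : ℝ := 1 / L + 1 / ε with hK
  have hKpos : 0 < K := by positivity
  refine ⟨1 + 2 * B * K, by positivity, ?_⟩
  intro z p q r h h0 hLq hp
  have cz := h.cz
  have cp := h.cp
  have cq := h.cq
  have cr := h.hr
  have hid := energy_identity hL.le h
  have hQ := hB (z 0) (p 0) (q 0) (z L) (p L) (q L) h0 hLq hp
  have htr := trace_right hL h hεpos
  have htl := trace_left hL h hεpos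
  rw [← hK] at htr htl
  have i1 : IntervalIntegrable (fun x => (-(2 * (1 + x) * z x * (r x + p x)))) volume 0 L := by
    apply ContinuousOn.intervalIntegrable_of_Icc hL.le; fun_prop
  have i2 : IntervalIntegrable (fun x => 3 * p x ^ 2) volume 0 L := by
    apply ContinuousOn.intervalIntegrable_of_Icc hL.le; fun_prop
  have i3 : IntervalIntegrable (fun x => z x ^ 2) volume 0 L := by
    apply ContinuousOn.intervalIntegrable_of_Icc hL.le; fun_prop
  have i4 : IntervalIntegrable (fun x => p x ^ 2) volume 0 L := by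
    apply ContinuousOn.intervalIntegrable_of_Icc hL.le; fun_prop
  have e1 : ∫ x in (0:ℝ)..L, (-(2 * (1 + x) * z x * (r x + p x)) + 3 * p x ^ 2 - z x ^ 2)
      = (∫ x in (0:ℝ)..L, (-(2 * (1 + x) * z x * (r x + p x)))) + 3 * (∫ x in (0:ℝ)..L, p x ^ 2)
        - ∫ x in (0:ℝ)..L, z x ^ 2 := by
    rw [intervalIntegral.integral_sub (i1.add i2) i3, intervalIntegral.integral_add i1 i2,
      intervalIntegral.integral_const_mul]
  have e2 : ∫ x in (0:ℝ)..L, (ε * p x ^ 2 + K * z x ^ 2)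
      = ε * (∫ x in (0:ℝ)..L, p x ^ 2) + K * ∫ x in (0:ℝ)..L, z x ^ 2 := by
    rw [intervalIntegral.integral_add (i4.const_mul _) (i3.const_mul _),
      intervalIntegral.integral_const_mul, intervalIntegral.integral_const_mul]
  have e3 : ∫ x in (0:ℝ)..L, (-2 * p x ^ 2 + (1 + 2 * B * K) * z x ^ 2)
      = -2 * (∫ x in (0:ℝ)..L, p x ^ 2) + (1 + 2 * B * K) * ∫ x in (0:ℝ)..L, z x ^ 2 := by
    rw [intervalIntegral.integral_add (i4.const_mul _) (i3.const_mul _),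
      intervalIntegral.integral_const_mul, intervalIntegral.integral_const_mul]
  rw [e2] at htr htl
  rw [e1] at hid
  rw [e3]
  set P := ∫ x in (0:ℝ)..L, p x ^ 2
  set Z := ∫ x in (0:ℝ)..L, z x ^ 2
  have hP : 0 ≤ P := intervalIntegral.integral_nonneg hL.le (fun x _ => sq_nonneg _)
  have hZ : 0 ≤ Z := intervalIntegral.integral_nonneg hL.le (fun x _ => sq_nonneg _)
  have hBε : 2 * B * ε ≤ 1 := by
    rw [hε, mul_one_div, div_le_one (by positivity)]; linarith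
  have hsum : B * (z 0 ^ 2 + z L ^ 2) ≤ 2 * B * ε * P + 2 * B * K * Z := by
    have : z 0 ^ 2 + z L ^ 2 ≤ 2 * (ε * P + K * Z) := by linarith
    calc B * (z 0 ^ 2 + z L ^ 2) ≤ B * (2 * (ε * P + K * Z)) := by gcongr
      _ = _ := by ring
  have hsum2 : 2 * B * ε * P ≤ 1 * P := by gcongr
  linarith



/-- duality bound -/
lemma pairing_le (s ℓ : ℝ) (ψ : 𝓢(ℝ, ℂ)) (hψ : tsupport ψ ⊆ Ioo 0 ℓ) :
    ∃ C : ℝ, 0 ≤ C ∧ ∀ f : ℝ → ℝ,
      ‖∫ x in (0:ℝ)..ℓ, (f x : ℂ) * ψ x‖ₑ ≤ ENNReal.ofReal C * sobNorm s ℓ f := by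
  let G : 𝓢(ℝ, ℂ) := 𝓕 (SchwartzMap.smulLeftCLM ℂ
    (fun x : ℝ => ((((1 + ‖x‖ ^ 2) ^ (-s / 2) : ℝ)) : ℂ)) (𝓕⁻ ψ))
  refine ⟨‖G.toLp 2 volume‖ + 1, by positivity, fun f => ?_⟩
  unfold sobNorm
  have hC0 : ENNReal.ofReal (‖G.toLp 2 volume‖ + 1) ≠ 0 := by
    rw [ENNReal.ofReal_ne_zero_iff]; positivity
  simp only [ENNReal.mul_iInf_of_ne hC0 ENNReal.ofReal_ne_top]
  refine le_iInf fun F => le_iInf fun hF => le_iInf fun g => le_iInf fun hg => ?_
  rw [← hF ψ hψ]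
  have h1 : F = TemperedDistribution.besselPotential ℝ ℂ (-s) (g : 𝓢'(ℝ, ℂ)) :=
    ((TemperedDistribution.besselPotential_neg_apply_eq_iff s _ _).2 hg).symm
  have h2 : F ψ = (g : 𝓢'(ℝ, ℂ)) G := by
    rw [h1]
    rfl
  rw [h2, Lp.toTemperedDistribution_apply]
  calc ‖∫ x, G x • g x‖ₑ ≤ ∫⁻ x, ‖G x • g x‖ₑ := enorm_integral_le_lintegral_enorm _
    _ = eLpNorm ((G : ℝ → ℂ) • (g : ℝ → ℂ)) 1 volume := by
        rw [eLpNorm_one_eq_lintegral_enorm]; rfl
    _ ≤ eLpNorm G 2 volume * eLpNorm g 2 volume :=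
        eLpNorm_smul_le_mul_eLpNorm (Lp.aestronglyMeasurable g) G.continuous.aestronglyMeasurable
    _ ≤ ENNReal.ofReal (‖G.toLp 2 volume‖ + 1) * ‖g‖ₑ := by
        rw [Lp.enorm_def]
        gcongr
        rw [SchwartzMap.norm_toLp]
        have h3 : eLpNorm G 2 volume ≠ ∞ := (G.memLp 2 volume).2.ne
        calc eLpNorm G 2 volume = ENNReal.ofReal (eLpNorm G 2 volume).toReal := by
              rw [ENNReal.ofReal_toReal h3]
          _ ≤ _ := ENNReal.ofReal_le_ofReal (by linarith)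


lemma sq_rpow_half (x : ℝ≥0∞) : (x ^ 2) ^ (1 / 2 : ℝ) = x := by
  rw [← ENNReal.rpow_natCast, ← ENNReal.rpow_mul]
  norm_num

/-- squared `H^s(ℝ)` norm of a Schwartz function -/
noncomputable def hsq (s : ℝ) (f : 𝓢(ℝ, ℂ)) : ℝ≥0∞ :=
  ∫⁻ ξ : ℝ, ENNReal.ofReal ((1 + ξ ^ 2) ^ s) * ‖(𝓕 f) ξ‖ₑ ^ 2

lemma hsq_eq (s : ℝ) (f : 𝓢(ℝ, ℂ)) :
    ‖(SchwartzMap.fourierMultiplierCLM ℂ (fun x : ℝ => ((1 + ‖x‖ ^ 2) ^ (s / 2) : ℝ)) f).toLp 2
      volume‖ₑ ^ 2 = hsq s f := by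
  set G : 𝓢(ℝ, ℂ) := SchwartzMap.fourierMultiplierCLM ℂ
    (fun x : ℝ => ((1 + ‖x‖ ^ 2) ^ (s / 2) : ℝ)) f with hG
  have hg : (fun ξ : ℝ => ((1 + ‖ξ‖ ^ 2) ^ (s / 2) : ℝ)).HasTemperateGrowth := by
    fun_prop
  have h1 : 𝓕 G = SchwartzMap.smulLeftCLM ℂ (fun ξ : ℝ => ((1 + ‖ξ‖ ^ 2) ^ (s / 2) : ℝ)) (𝓕 f) := by
    rw [hG, SchwartzMap.fourierMultiplierCLM_apply, FourierTransform.fourier_fourierInv_eq]
  have h2 : ‖G.toLp 2 volume‖ₑ = ‖(𝓕 G).toLp 2 volume‖ₑ := by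
    rw [← ofReal_norm, ← ofReal_norm, SchwartzMap.norm_fourier_toL2_eq]
  rw [h2, Lp.enorm_def]
  have h3 : eLpNorm ((𝓕 G).toLp 2 volume) 2 volume = eLpNorm (⇑(𝓕 G : 𝓢(ℝ, ℂ))) 2 volume :=
    eLpNorm_congr_ae ((𝓕 G).coeFn_toLp 2 volume)
  rw [h3, eLpNorm_eq_lintegral_rpow_enorm_toReal (by norm_num) (by norm_num)]
  simp only [ENNReal.toReal_ofNat]
  rw [← ENNReal.rpow_natCast, ← ENNReal.rpow_mul]
  norm_num
  unfold hsq
  apply lintegral_congr
  intro ξ
  rw [h1, SchwartzMap.smulLeftCLM_apply_apply hg, enorm_smul, mul_pow]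
  congr 1
  rw [Real.enorm_eq_ofReal (by positivity), ← ENNReal.ofReal_pow (by positivity)]
  congr 1
  have e : ((1 + ‖ξ‖ ^ 2) ^ (s / 2)) ^ 2 = (1 + ‖ξ‖ ^ 2) ^ s := by
    rw [← Real.rpow_natCast ((1 + ‖ξ‖ ^ 2) ^ (s / 2)) 2, ← Real.rpow_mul (by positivity)]
    congr 1
    push_cast; ring
  rw [e]; simp

/-- upper bound of the `H^s(0,ℓ)` norm by an extension -/
lemma sobNorm_le (s ℓ : ℝ) (f : ℝ → ℝ) (F : 𝓢(ℝ, ℂ)) (hF : ∀ x ∈ Ioo 0 ℓ, F x = (f x : ℂ))
    (hℓ : 0 ≤ ℓ) : sobNorm s ℓ f ≤ (hsq s F) ^ (1 / 2 : ℝ) := by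
  set G : 𝓢(ℝ, ℂ) := SchwartzMap.fourierMultiplierCLM ℂ
    (fun x : ℝ => ((1 + ‖x‖ ^ 2) ^ (s / 2) : ℝ)) F with hG
  have hg : (fun ξ : ℝ => ((1 + ‖ξ‖ ^ 2) ^ (s / 2) : ℝ)).HasTemperateGrowth := by
    fun_prop
  have hext : Extends ℓ f (F : 𝓢'(ℝ, ℂ)) := by
    intro ψ hψ
    rw [SchwartzMap.coe_apply]
    have h1 : ∫ x, ψ x • F x = ∫ x in Ioo 0 ℓ, ψ x • F x := by
      symm
      apply setIntegral_eq_integral_of_forall_compl_eq_zero
      intro x hx
      have : ψ x = 0 := image_eq_zero_of_notMem_tsupport (fun h => hx (hψ h))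
      rw [this, zero_smul]
    rw [h1, intervalIntegral.integral_of_le hℓ, integral_Ioc_eq_integral_Ioo]
    apply setIntegral_congr_fun measurableSet_Ioo
    intro x hx
    simp only [smul_eq_mul]
    rw [hF x hx, mul_comm]
  have hbp : TemperedDistribution.besselPotential ℝ ℂ s (F : 𝓢'(ℝ, ℂ)) =
      ((G.toLp 2 volume : Lp ℂ 2 (volume : Measure ℝ)) : 𝓢'(ℝ, ℂ)) := by
    rw [TemperedDistribution.besselPotential, Lp.toTemperedDistribution_toLp_eq,
      TemperedDistribution.fourierMultiplierCLM_toTemperedDistributionCLM_eq (by fun_prop)]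
    congr 1
    apply SchwartzMap.fourierMultiplierCLM_ofReal ℂ
      (Function.hasTemperateGrowth_one_add_norm_sq_rpow ℝ (s / 2))
  have hle : sobNorm s ℓ f ≤ ‖G.toLp 2 volume‖ₑ :=
    iInf_le_of_le _ (iInf_le_of_le hext (iInf_le_of_le _ (iInf_le_of_le hbp le_rfl)))
  refine hle.trans (le_of_eq ?_)
  rw [← hsq_eq s F, sq_rpow_half]


/-- the modulated bump `e^{2πiax} A(x)` as a Schwartz function -/
lemma exists_modul (A : ℝ → ℝ) (hA : ContDiff ℝ ((⊤ : ℕ∞) : WithTop ℕ∞) A)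
    (hc : HasCompactSupport A) (a : ℝ) :
    ∃ F : 𝓢(ℝ, ℂ), ∀ x, F x = Complex.exp (2 * Real.pi * a * x * Complex.I) * (A x : ℂ) := by
  have h1 : ContDiff ℝ ((⊤ : ℕ∞) : WithTop ℕ∞)
      (fun x : ℝ => Complex.exp (2 * Real.pi * a * x * Complex.I) * (A x : ℂ)) := by
    have h2 : ContDiff ℝ ((⊤ : ℕ∞) : WithTop ℕ∞) (fun x : ℝ => (x : ℂ)) :=
      Complex.ofRealCLM.contDiff
    have h3 : ContDiff ℝ ((⊤ : ℕ∞) : WithTop ℕ∞) (fun x : ℝ => (A x : ℂ)) :=
      Complex.ofRealCLM.contDiff.comp hA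
    exact ((((contDiff_const.mul h2).mul contDiff_const)).cexp).mul h3
  have h4 : HasCompactSupport
      (fun x : ℝ => Complex.exp (2 * Real.pi * a * x * Complex.I) * (A x : ℂ)) :=
    (hc.comp_left (g := fun y : ℝ => (y : ℂ)) (by simp)).mul_left
  exact ⟨h4.toSchwartzMap h1, fun x => rfl⟩

lemma fourier_modul {A F : 𝓢(ℝ, ℂ)} {a : ℝ}
    (hF : ∀ x, F x = Complex.exp (2 * Real.pi * a * x * Complex.I) * A x) (ξ : ℝ) :
    (𝓕 F) ξ = (𝓕 A) (ξ - a) := by
  rw [SchwartzMap.fourier_coe, SchwartzMap.fourier_coe]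
  rw [Real.fourier_eq', Real.fourier_eq']
  congr 1
  ext x
  rw [hF]
  simp only [smul_eq_mul]
  rw [← mul_assoc, ← Complex.exp_add]
  congr 2
  simp
  ring

/-- Peetre inequality -/
lemma peetre {s : ℝ} (hs : s ≤ 0) (ξ a : ℝ) :
    (1 + ξ ^ 2) ^ s ≤ 2 ^ (-s) * (1 + a ^ 2) ^ s * (1 + (ξ - a) ^ 2) ^ (-s) := by
  have h1 : 1 + a ^ 2 ≤ 2 * (1 + ξ ^ 2) * (1 + (ξ - a) ^ 2) := by
    nlinarith [sq_nonneg (2 * ξ - a), sq_nonneg (ξ * (ξ - a)), sq_nonneg ξ, sq_nonneg (ξ - a)]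
  have hp1 : 0 < 1 + a ^ 2 := by positivity
  have hp2 : 0 < 1 + ξ ^ 2 := by positivity
  have hp3 : 0 < 1 + (ξ - a) ^ 2 := by positivity
  have h2 : (1 + a ^ 2) ^ (-s) ≤ (2 * (1 + ξ ^ 2) * (1 + (ξ - a) ^ 2)) ^ (-s) :=
    Real.rpow_le_rpow hp1.le h1 (by linarith)
  rw [Real.mul_rpow (by positivity) hp3.le, Real.mul_rpow (by norm_num) hp2.le] at h2
  have e1 : (1 + a ^ 2) ^ (-s) * (1 + a ^ 2) ^ s = 1 := by
    rw [← Real.rpow_add hp1]; simp
  have e2 : (1 + ξ ^ 2) ^ (-s) * (1 + ξ ^ 2) ^ s = 1 := by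
    rw [← Real.rpow_add hp2]; simp
  have p1 : 0 < (1 + a ^ 2) ^ s := Real.rpow_pos_of_pos hp1 _
  have p2 : 0 < (1 + ξ ^ 2) ^ s := Real.rpow_pos_of_pos hp2 _
  calc (1 + ξ ^ 2) ^ s = ((1 + a ^ 2) ^ (-s) * (1 + a ^ 2) ^ s) * (1 + ξ ^ 2) ^ s := by
        rw [e1, one_mul]
    _ ≤ ((2 ^ (-s) * (1 + ξ ^ 2) ^ (-s) * (1 + (ξ - a) ^ 2) ^ (-s)) * (1 + a ^ 2) ^ s)
        * (1 + ξ ^ 2) ^ s := by gcongr
    _ = 2 ^ (-s) * (1 + a ^ 2) ^ s * (1 + (ξ - a) ^ 2) ^ (-s)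
        * ((1 + ξ ^ 2) ^ (-s) * (1 + ξ ^ 2) ^ s) := by ring
    _ = _ := by rw [e2, mul_one]

lemma hsq_modul {s : ℝ} (hs : s ≤ 0) {A F : 𝓢(ℝ, ℂ)} {a : ℝ}
    (hF : ∀ x, F x = Complex.exp (2 * Real.pi * a * x * Complex.I) * A x) :
    hsq s F ≤ ENNReal.ofReal (2 ^ (-s) * (1 + a ^ 2) ^ s) * hsq (-s) A := by
  unfold hsq
  have h1 : ∫⁻ ξ : ℝ, ENNReal.ofReal ((1 + ξ ^ 2) ^ (-s)) * ‖(𝓕 A) ξ‖ₑ ^ 2
      = ∫⁻ ξ : ℝ, ENNReal.ofReal ((1 + (ξ - a) ^ 2) ^ (-s)) * ‖(𝓕 A) (ξ - a)‖ₑ ^ 2 :=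
    (lintegral_sub_right_eq_self
      (fun ξ : ℝ => ENNReal.ofReal ((1 + ξ ^ 2) ^ (-s)) * ‖(𝓕 A) ξ‖ₑ ^ 2) a).symm
  rw [h1, ← lintegral_const_mul' _ _ ENNReal.ofReal_ne_top]
  apply lintegral_mono
  intro ξ
  simp only
  rw [fourier_modul hF ξ, ← mul_assoc, ← ENNReal.ofReal_mul (by positivity)]
  gcongr
  exact peetre hs ξ a



/-- a profile with its derivatives, bounded and supported in `(3L/8, 5L/8)` -/
structure Profile (L : ℝ) (A A1 A2 A3 : ℝ → ℝ) (M : ℝ) : Prop where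
  h1 : ∀ x, HasDerivAt A (A1 x) x
  h2 : ∀ x, HasDerivAt A1 (A2 x) x
  h3 : ∀ x, HasDerivAt A2 (A3 x) x
  c3 : Continuous A3
  b0 : ∀ x, |A x| ≤ M
  b1 : ∀ x, |A1 x| ≤ M
  b2 : ∀ x, |A2 x| ≤ M
  b3 : ∀ x, |A3 x| ≤ M
  s0 : ∀ x, (x ≤ 3 * L / 8 ∨ 5 * L / 8 ≤ x) → A x = 0
  s1 : ∀ x, (x ≤ 3 * L / 8 ∨ 5 * L / 8 ≤ x) → A1 x = 0
  s2 : ∀ x, (x ≤ 3 * L / 8 ∨ 5 * L / 8 ≤ x) → A2 x = 0

/-- the approximate solution and its derivatives -/
noncomputable def ap (A : ℝ → ℝ) (N t x : ℝ) : ℝ :=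
  N * A (x + 3 * N ^ 2 * t) * Real.cos (N * x + N ^ 3 * t)
    + 1 / 12 * A (x + 3 * N ^ 2 * t) ^ 2 * Real.cos (2 * (N * x + N ^ 3 * t))

noncomputable def apx (A A1 : ℝ → ℝ) (N t x : ℝ) : ℝ :=
  N * (A1 (x + 3 * N ^ 2 * t) * Real.cos (N * x + N ^ 3 * t)
      - N * A (x + 3 * N ^ 2 * t) * Real.sin (N * x + N ^ 3 * t))
    + 1 / 12 * (2 * A (x + 3 * N ^ 2 * t) * A1 (x + 3 * N ^ 2 * t)
        * Real.cos (2 * (N * x + N ^ 3 * t))
      - 2 * N * A (x + 3 * N ^ 2 * t) ^ 2 * Real.sin (2 * (N * x + N ^ 3 * t)))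

noncomputable def apxx (A A1 A2 : ℝ → ℝ) (N t x : ℝ) : ℝ :=
  N * (A2 (x + 3 * N ^ 2 * t) * Real.cos (N * x + N ^ 3 * t)
      - 2 * N * A1 (x + 3 * N ^ 2 * t) * Real.sin (N * x + N ^ 3 * t)
      - N ^ 2 * A (x + 3 * N ^ 2 * t) * Real.cos (N * x + N ^ 3 * t))
    + 1 / 12 * ((2 * A1 (x + 3 * N ^ 2 * t) ^ 2
          + 2 * A (x + 3 * N ^ 2 * t) * A2 (x + 3 * N ^ 2 * t))
        * Real.cos (2 * (N * x + N ^ 3 * t))
      - 8 * N * A (x + 3 * N ^ 2 * t) * A1 (x + 3 * N ^ 2 * t)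
        * Real.sin (2 * (N * x + N ^ 3 * t))
      - 4 * N ^ 2 * A (x + 3 * N ^ 2 * t) ^ 2 * Real.cos (2 * (N * x + N ^ 3 * t)))

noncomputable def apxxx (A A1 A2 A3 : ℝ → ℝ) (N t x : ℝ) : ℝ :=
  N * (A3 (x + 3 * N ^ 2 * t) * Real.cos (N * x + N ^ 3 * t)
      - 3 * N * A2 (x + 3 * N ^ 2 * t) * Real.sin (N * x + N ^ 3 * t)
      - 3 * N ^ 2 * A1 (x + 3 * N ^ 2 * t) * Real.cos (N * x + N ^ 3 * t)
      + N ^ 3 * A (x + 3 * N ^ 2 * t) * Real.sin (N * x + N ^ 3 * t))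
    + 1 / 12 * ((6 * A1 (x + 3 * N ^ 2 * t) * A2 (x + 3 * N ^ 2 * t)
          + 2 * A (x + 3 * N ^ 2 * t) * A3 (x + 3 * N ^ 2 * t))
        * Real.cos (2 * (N * x + N ^ 3 * t))
      - 6 * N * (2 * A1 (x + 3 * N ^ 2 * t) ^ 2
          + 2 * A (x + 3 * N ^ 2 * t) * A2 (x + 3 * N ^ 2 * t))
        * Real.sin (2 * (N * x + N ^ 3 * t))
      - 24 * N ^ 2 * A (x + 3 * N ^ 2 * t) * A1 (x + 3 * N ^ 2 * t)
        * Real.cos (2 * (N * x + N ^ 3 * t))
      + 8 * N ^ 3 * A (x + 3 * N ^ 2 * t) ^ 2 * Real.sin (2 * (N * x + N ^ 3 * t)))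

noncomputable def apt (A A1 : ℝ → ℝ) (N t x : ℝ) : ℝ :=
  N * (3 * N ^ 2 * A1 (x + 3 * N ^ 2 * t) * Real.cos (N * x + N ^ 3 * t)
      - N ^ 3 * A (x + 3 * N ^ 2 * t) * Real.sin (N * x + N ^ 3 * t))
    + 1 / 12 * (6 * N ^ 2 * A (x + 3 * N ^ 2 * t) * A1 (x + 3 * N ^ 2 * t)
        * Real.cos (2 * (N * x + N ^ 3 * t))
      - 2 * N ^ 3 * A (x + 3 * N ^ 2 * t) ^ 2 * Real.sin (2 * (N * x + N ^ 3 * t)))

section
variable {L : ℝ} {A A1 A2 A3 : ℝ → ℝ} {M : ℝ}

lemma comp_x {g g' : ℝ → ℝ} (hg : ∀ x, HasDerivAt g (g' x) x) (N t x : ℝ) :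
    HasDerivAt (fun x => g (x + 3 * N ^ 2 * t)) (g' (x + 3 * N ^ 2 * t)) x := by
  have h := (hg (x + 3 * N ^ 2 * t)).comp x ((hasDerivAt_id x).add_const (3 * N ^ 2 * t))
  exact h.congr_deriv (by ring)

lemma comp_t {g g' : ℝ → ℝ} (hg : ∀ x, HasDerivAt g (g' x) x) (N t x : ℝ) :
    HasDerivAt (fun t => g (x + 3 * N ^ 2 * t)) (3 * N ^ 2 * g' (x + 3 * N ^ 2 * t)) t := by
  have h0 : HasDerivAt (fun t => x + 3 * N ^ 2 * t) (3 * N ^ 2) t := by
    simpa using ((hasDerivAt_id t).const_mul (3 * N ^ 2)).const_add x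
  have h := (hg (x + 3 * N ^ 2 * t)).comp t h0
  refine h.congr_deriv ?_
  ring

lemma cos_x (N t x : ℝ) : HasDerivAt (fun x => Real.cos (N * x + N ^ 3 * t))
    (-(N * Real.sin (N * x + N ^ 3 * t))) x := by
  have h0 : HasDerivAt (fun x => N * x + N ^ 3 * t) N x := by
    simpa using ((hasDerivAt_id x).const_mul N).add_const (N ^ 3 * t)
  exact h0.cos.congr_deriv (by ring)

lemma sin_x (N t x : ℝ) : HasDerivAt (fun x => Real.sin (N * x + N ^ 3 * t))
    (N * Real.cos (N * x + N ^ 3 * t)) x := by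
  have h0 : HasDerivAt (fun x => N * x + N ^ 3 * t) N x := by
    simpa using ((hasDerivAt_id x).const_mul N).add_const (N ^ 3 * t)
  exact h0.sin.congr_deriv (by ring)

lemma cos2_x (N t x : ℝ) : HasDerivAt (fun x => Real.cos (2 * (N * x + N ^ 3 * t)))
    (-(2 * N * Real.sin (2 * (N * x + N ^ 3 * t)))) x := by
  have h0 : HasDerivAt (fun x => 2 * (N * x + N ^ 3 * t)) (2 * N) x := by
    simpa using (((hasDerivAt_id x).const_mul N).add_const (N ^ 3 * t)).const_mul 2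
  exact h0.cos.congr_deriv (by ring)

lemma sin2_x (N t x : ℝ) : HasDerivAt (fun x => Real.sin (2 * (N * x + N ^ 3 * t)))
    (2 * N * Real.cos (2 * (N * x + N ^ 3 * t))) x := by
  have h0 : HasDerivAt (fun x => 2 * (N * x + N ^ 3 * t)) (2 * N) x := by
    simpa using (((hasDerivAt_id x).const_mul N).add_const (N ^ 3 * t)).const_mul 2
  exact h0.sin.congr_deriv (by ring)

lemma cos_t (N t x : ℝ) : HasDerivAt (fun t => Real.cos (N * x + N ^ 3 * t))
    (-(N ^ 3 * Real.sin (N * x + N ^ 3 * t))) t := by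
  have h0 : HasDerivAt (fun t => N * x + N ^ 3 * t) (N ^ 3) t := by
    simpa using ((hasDerivAt_id t).const_mul (N ^ 3)).const_add (N * x)
  exact h0.cos.congr_deriv (by ring)

lemma cos2_t (N t x : ℝ) : HasDerivAt (fun t => Real.cos (2 * (N * x + N ^ 3 * t)))
    (-(2 * N ^ 3 * Real.sin (2 * (N * x + N ^ 3 * t)))) t := by
  have h0 : HasDerivAt (fun t => 2 * (N * x + N ^ 3 * t)) (2 * N ^ 3) t := by
    simpa using (((hasDerivAt_id t).const_mul (N ^ 3)).const_add (N * x)).const_mul 2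
  exact h0.cos.congr_deriv (by ring)

lemma ap_x (h : Profile L A A1 A2 A3 M) (N t x : ℝ) :
    HasDerivAt (fun x => ap A N t x) (apx A A1 N t x) x := by
  have dA := comp_x h.h1 N t x
  have d := ((dA.const_mul N).mul (cos_x N t x)).add
    (((dA.pow 2).const_mul (1 / 12)).mul (cos2_x N t x))
  unfold ap apx
  refine (d.congr_deriv ?_).congr_of_eventuallyEq (Eventually.of_forall fun y => ?_)
  · simp; ring
  · simp

lemma ap_xx (h : Profile L A A1 A2 A3 M) (N t x : ℝ) :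
    HasDerivAt (fun x => apx A A1 N t x) (apxx A A1 A2 N t x) x := by
  have dA := comp_x h.h1 N t x
  have dA1 := comp_x h.h2 N t x
  have d := (((dA1.mul (cos_x N t x)).sub ((dA.const_mul N).mul (sin_x N t x))).const_mul N).add
    (((((dA.const_mul 2).mul dA1).mul (cos2_x N t x)).sub
      (((dA.pow 2).const_mul (2 * N)).mul (sin2_x N t x))).const_mul (1 / 12))
  unfold apx apxx
  refine (d.congr_deriv ?_).congr_of_eventuallyEq (Eventually.of_forall fun y => ?_)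
  · simp; ring
  · simp

lemma ap_xxx (h : Profile L A A1 A2 A3 M) (N t x : ℝ) :
    HasDerivAt (fun x => apxx A A1 A2 N t x) (apxxx A A1 A2 A3 N t x) x := by
  have dA := comp_x h.h1 N t x
  have dA1 := comp_x h.h2 N t x
  have dA2 := comp_x h.h3 N t x
  have d := ((((dA2.mul (cos_x N t x)).sub ((dA1.const_mul (2 * N)).mul (sin_x N t x))).sub
      ((dA.const_mul (N ^ 2)).mul (cos_x N t x))).const_mul N).add
    (((((((dA1.pow 2).const_mul 2).add ((dA.const_mul 2).mul dA2)).mul (cos2_x N t x)).sub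
      (((dA.const_mul (8 * N)).mul dA1).mul (sin2_x N t x))).sub
      (((dA.pow 2).const_mul (4 * N ^ 2)).mul (cos2_x N t x))).const_mul (1 / 12))
  unfold apxx apxxx
  refine (d.congr_deriv ?_).congr_of_eventuallyEq (Eventually.of_forall fun y => ?_)
  · simp; ring
  · simp

lemma ap_t (h : Profile L A A1 A2 A3 M) (N t x : ℝ) :
    HasDerivAt (fun t => ap A N t x) (apt A A1 N t x) t := by
  have dA := comp_t h.h1 N t x
  have d := ((dA.const_mul N).mul (cos_t N t x)).add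
    (((dA.pow 2).const_mul (1 / 12)).mul (cos2_t N t x))
  unfold ap apt
  refine (d.congr_deriv ?_).congr_of_eventuallyEq (Eventually.of_forall fun y => ?_)
  · simp; ring
  · simp

lemma Profile.cA (h : Profile L A A1 A2 A3 M) : Continuous A :=
  continuous_iff_continuousAt.2 fun x => (h.h1 x).continuousAt
lemma Profile.cA1 (h : Profile L A A1 A2 A3 M) : Continuous A1 :=
  continuous_iff_continuousAt.2 fun x => (h.h2 x).continuousAt
lemma Profile.cA2 (h : Profile L A A1 A2 A3 M) : Continuous A2 :=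
  continuous_iff_continuousAt.2 fun x => (h.h3 x).continuousAt

/-- residual -/
noncomputable def res (A A1 A2 A3 : ℝ → ℝ) (N t x : ℝ) : ℝ :=
  apt A A1 N t x + apx A A1 N t x + apxxx A A1 A2 A3 N t x + ap A N t x * apx A A1 N t x

/-- polynomial bounds by compactness -/
lemma poly_bound (m : ℝ) (Φ : (Fin 8 → ℝ) → ℝ) (hΦ : Continuous Φ) :
    ∃ C, 0 ≤ C ∧ ∀ v : Fin 8 → ℝ, (∀ i, |v i| ≤ m) → |Φ v| ≤ C := by
  have hc : IsCompact (Icc (fun _ : Fin 8 => -m) (fun _ => m)) := isCompact_Icc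
  obtain ⟨C, hC⟩ := hc.exists_bound_of_continuousOn hΦ.continuousOn
  refine ⟨max C 0, le_max_right _ _, fun v hv => ?_⟩
  have := hC v ⟨fun i => (abs_le.1 (hv i)).1, fun i => (abs_le.1 (hv i)).2⟩
  exact this.trans (le_max_left _ _)

lemma bounds (h : Profile L A A1 A2 A3 M) : ∃ C, 0 ≤ C ∧ ∀ N, 1 ≤ N → ∀ t x,
    |ap A N t x| ≤ C * N ∧ |apx A A1 N t x| ≤ C * N ^ 2 ∧ |res A A1 A2 A3 N t x| ≤ C * N ^ 2 := by
  -- variables: 0:κ=1/N, 1:A, 2:A1, 3:A2, 4:A3, 5:cos, 6:sin, 7:cos2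
  obtain ⟨C1, hC1, h1⟩ := poly_bound (max M 1)
    (fun v => v 1 * v 5 + v 0 * (1 / 12 * v 1 ^ 2 * v 7)) (by fun_prop)
  obtain ⟨C2, hC2, h2⟩ := poly_bound (max M 1)
    (fun v => v 0 * v 2 * v 5 - v 1 * v 6 + 1 / 12 * (v 0 ^ 2 * (2 * v 1 * v 2 * v 7)
      - 2 * v 0 * v 1 ^ 2 * (2 * v 6 * v 5))) (by fun_prop)
  obtain ⟨C3, hC3, h3⟩ := poly_bound (max M 1)
    (fun v => v 0 * v 4 * v 5 - 3 * v 3 * v 6
      + 1 / 12 * (v 0 ^ 2 * (6 * v 2 * v 3 + 2 * v 1 * v 4) * v 7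
        - 6 * v 0 * (2 * v 2 ^ 2 + 2 * v 1 * v 3) * (2 * v 6 * v 5) - 18 * v 1 * v 2 * v 7)
      + (v 0 * v 2 * v 5 - v 1 * v 6 + 1 / 12 * (v 0 ^ 2 * (2 * v 1 * v 2 * v 7)
      - 2 * v 0 * v 1 ^ 2 * (2 * v 6 * v 5)))
      + v 1 * v 2 * v 5 ^ 2 + v 0 / 12 * (v 1 * v 5 * (2 * v 1 * v 2) * v 7)
      - 1 / 6 * (v 1 * v 5 * v 1 ^ 2 * (2 * v 6 * v 5)) + v 0 / 12 * (v 1 ^ 2 * v 7 * v 2 * v 5)
      - 1 / 12 * (v 1 ^ 2 * v 7 * v 1 * v 6) + v 0 ^ 2 / 144 * (v 1 ^ 2 * (2 * v 1 * v 2) * v 7 ^ 2)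
      - v 0 / 72 * (v 1 ^ 4 * v 7 * (2 * v 6 * v 5))) (by fun_prop)
  refine ⟨max C1 (max C2 C3), by positivity, ?_⟩
  intro N hN t x
  have hN0 : 0 < N := by linarith
  have hNne : N ≠ 0 := hN0.ne'
  set y := x + 3 * N ^ 2 * t with hy
  set θ := N * x + N ^ 3 * t with hθ
  set v : Fin 8 → ℝ := ![1 / N, A y, A1 y, A2 y, A3 y, Real.cos θ, Real.sin θ, Real.cos (2 * θ)] with hv
  have hvb : ∀ i, |v i| ≤ max M 1 := by
    intro i
    fin_cases i
    · show |1 / N| ≤ max M 1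
      rw [abs_of_pos (by positivity)]
      refine le_trans ?_ (le_max_right _ _)
      rw [div_le_one hN0]; exact hN
    · exact (h.b0 y).trans (le_max_left _ _)
    · exact (h.b1 y).trans (le_max_left _ _)
    · exact (h.b2 y).trans (le_max_left _ _)
    · exact (h.b3 y).trans (le_max_left _ _)
    · exact (Real.abs_cos_le_one θ).trans (le_max_right _ _)
    · exact (Real.abs_sin_le_one θ).trans (le_max_right _ _)
    · exact (Real.abs_cos_le_one (2 * θ)).trans (le_max_right _ _)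
  have hs2 : Real.sin (2 * θ) = 2 * Real.sin θ * Real.cos θ := Real.sin_two_mul θ
  have v0 : v 0 = 1 / N := rfl
  have v1 : v 1 = A y := rfl
  have v2 : v 2 = A1 y := rfl
  have v3 : v 3 = A2 y := rfl
  have v4 : v 4 = A3 y := rfl
  have v5 : v 5 = Real.cos θ := rfl
  have v6 : v 6 = Real.sin θ := rfl
  have v7 : v 7 = Real.cos (2 * θ) := rfl
  have g1 := h1 v hvb
  have g2 := h2 v hvb
  have g3 := h3 v hvb
  simp only [v0, v1, v2, v3, v4, v5, v6, v7] at g1 g2 g3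
  refine ⟨?_, ?_, ?_⟩
  · have e : ap A N t x = N * (A y * Real.cos θ + 1 / N * (1 / 12 * A y ^ 2 * Real.cos (2 * θ))) := by
      unfold ap; rw [← hy, ← hθ]; field_simp
    rw [e, abs_mul, abs_of_pos hN0, mul_comm]
    gcongr
    exact g1.trans (le_max_left _ _)
  · have e : apx A A1 N t x = N ^ 2 * (1 / N * A1 y * Real.cos θ - A y * Real.sin θ + 1 / 12 *
        ((1 / N) ^ 2 * (2 * A y * A1 y * Real.cos (2 * θ))
        - 2 * (1 / N) * A y ^ 2 * (2 * Real.sin θ * Real.cos θ))) := by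
      unfold apx; rw [← hy, ← hθ, hs2]; field_simp
    rw [e, abs_mul, abs_of_pos (by positivity), mul_comm]
    gcongr
    exact g2.trans ((le_max_left _ _).trans (le_max_right _ _))
  · have e : res A A1 A2 A3 N t x = N ^ 2 * (1 / N * A3 y * Real.cos θ - 3 * A2 y * Real.sin θ
      + 1 / 12 * ((1 / N) ^ 2 * (6 * A1 y * A2 y + 2 * A y * A3 y) * Real.cos (2 * θ)
        - 6 * (1 / N) * (2 * A1 y ^ 2 + 2 * A y * A2 y) * (2 * Real.sin θ * Real.cos θ)
        - 18 * A y * A1 y * Real.cos (2 * θ))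
      + (1 / N * A1 y * Real.cos θ - A y * Real.sin θ + 1 / 12 *
        ((1 / N) ^ 2 * (2 * A y * A1 y * Real.cos (2 * θ))
        - 2 * (1 / N) * A y ^ 2 * (2 * Real.sin θ * Real.cos θ)))
      + A y * A1 y * Real.cos θ ^ 2
      + 1 / N / 12 * (A y * Real.cos θ * (2 * A y * A1 y) * Real.cos (2 * θ))
      - 1 / 6 * (A y * Real.cos θ * A y ^ 2 * (2 * Real.sin θ * Real.cos θ))
      + 1 / N / 12 * (A y ^ 2 * Real.cos (2 * θ) * A1 y * Real.cos θ)
      - 1 / 12 * (A y ^ 2 * Real.cos (2 * θ) * A y * Real.sin θ)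
      + (1 / N) ^ 2 / 144 * (A y ^ 2 * (2 * A y * A1 y) * Real.cos (2 * θ) ^ 2)
      - 1 / N / 72 * (A y ^ 4 * Real.cos (2 * θ) * (2 * Real.sin θ * Real.cos θ))) := by
      unfold res apt apx apxxx ap; rw [← hy, ← hθ, hs2]; field_simp; ring
    rw [e, abs_mul, abs_of_pos (by positivity), mul_comm]
    gcongr
    exact g3.trans ((le_max_right _ _).trans (le_max_right _ _))

end

/-! ### derivatives on `[0,L]` -/

lemma c3_of_contDiffOn {L : ℝ} (hL : 0 < L) {f : ℝ → ℝ} (hf : ContDiffOn ℝ 3 f (Icc 0 L)) :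
    C3 L f (dx L 1 f) (dx L 2 f) (dx L 3 f) := by
  have hu : UniqueDiffOn ℝ (Icc 0 L) := uniqueDiffOn_Icc hL
  have hstep : ∀ j : ℕ, (j : ℕ) < 3 → ∀ x ∈ Icc 0 L,
      HasDerivWithinAt (iteratedDerivWithin j f (Icc 0 L)) (dx L (j + 1) f x) (Icc 0 L) x := by
    intro j hj x hx
    have h1 : DifferentiableOn ℝ (iteratedDerivWithin j f (Icc 0 L)) (Icc 0 L) := by
      apply hf.differentiableOn_iteratedDerivWithin _ hu
      exact_mod_cast hj
    have h2 := (h1 x hx).hasDerivWithinAt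
    rw [← iteratedDerivWithin_succ] at h2
    exact h2
  refine ⟨?_, hstep 1 (by norm_num), hstep 2 (by norm_num), ?_⟩
  · intro x hx
    have := hstep 0 (by norm_num) x hx
    rwa [iteratedDerivWithin_zero] at this
  · exact hf.continuousOn_iteratedDerivWithin (by norm_num) hu

lemma C3.sub {L : ℝ} {z p q r z' p' q' r' : ℝ → ℝ} (h : C3 L z p q r) (h' : C3 L z' p' q' r') :
    C3 L (fun x => z x - z' x) (fun x => p x - p' x) (fun x => q x - q' x)
      (fun x => r x - r' x) :=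
  ⟨fun x hx => (h.h1 x hx).sub (h'.h1 x hx), fun x hx => (h.h2 x hx).sub (h'.h2 x hx),
    fun x hx => (h.h3 x hx).sub (h'.h3 x hx), h.hr.sub h'.hr⟩

/-- spatial energy inequality for the difference of two functions with equal boundary data -/
lemma energy_diff (k : ℕ) (c : Coeffs) {L : ℝ} (hL : 0 < L) :
    ∃ C, 0 ≤ C ∧ ∀ f g : ℝ → ℝ, ContDiffOn ℝ 3 f (Icc 0 L) → ContDiffOn ℝ 3 g (Icc 0 L) →
      bdry k c L f = bdry k c L g →
      ∫ x in (0:ℝ)..L, (-(2 * (1 + x) * (f x - g x) * ((dx L 3 f x - dx L 3 g x)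
          + (dx L 1 f x - dx L 1 g x)))) ≤
        ∫ x in (0:ℝ)..L, (-2 * (dx L 1 f x - dx L 1 g x) ^ 2 + C * (f x - g x) ^ 2) := by
  have key : ∀ a10 a11 a20 a21 a30 b10 b20 b30 : ℝ,
      (∀ f g : ℝ → ℝ, bdry k c L f = bdry k c L g →
        ((f 0 - g 0) * (dx L 2 f 0 - dx L 2 g 0) = -((f 0 - g 0) * (a10 * (f 0 - g 0)
            + a11 * (dx L 1 f 0 - dx L 1 g 0) + b10 * (f L - g L)))) ∧
        ((f L - g L) * (dx L 2 f L - dx L 2 g L) = -((f L - g L) * (a20 * (f 0 - g 0)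
            + a21 * (dx L 1 f 0 - dx L 1 g 0) + b20 * (f L - g L)))) ∧
        (dx L 1 f L - dx L 1 g L = -(a30 * (f 0 - g 0) + b30 * (f L - g L)))) →
      ∃ C, 0 ≤ C ∧ ∀ f g : ℝ → ℝ, ContDiffOn ℝ 3 f (Icc 0 L) → ContDiffOn ℝ 3 g (Icc 0 L) →
      bdry k c L f = bdry k c L g →
      ∫ x in (0:ℝ)..L, (-(2 * (1 + x) * (f x - g x) * ((dx L 3 f x - dx L 3 g x)
          + (dx L 1 f x - dx L 1 g x)))) ≤
        ∫ x in (0:ℝ)..L, (-2 * (dx L 1 f x - dx L 1 g x) ^ 2 + C * (f x - g x) ^ 2) := by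
    intro a10 a11 a20 a21 a30 b10 b20 b30 hbc
    obtain ⟨C, hC0, hC⟩ := energy_bound a10 a11 a20 a21 a30 b10 b20 b30 hL
    refine ⟨C, hC0, fun f g hf hg hfg => ?_⟩
    obtain ⟨h1, h2, h3⟩ := hbc f g hfg
    exact hC _ _ _ _ ((c3_of_contDiffOn hL hf).sub (c3_of_contDiffOn hL hg)) h1 h2 h3
  have key4 : (∀ v, bdry k c L v = ![dx L 2 v 0 + (c.a10 * v 0 + c.a11 * dx L 1 v 0 + c.b10 * v L),
           dx L 1 v L + (c.a30 * v 0 + c.b30 * v L),
           dx L 2 v L + (c.a20 * v 0 + c.a21 * dx L 1 v 0 + c.b20 * v L)]) →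
      ∃ C, 0 ≤ C ∧ ∀ f g : ℝ → ℝ, ContDiffOn ℝ 3 f (Icc 0 L) → ContDiffOn ℝ 3 g (Icc 0 L) →
      bdry k c L f = bdry k c L g →
      ∫ x in (0:ℝ)..L, (-(2 * (1 + x) * (f x - g x) * ((dx L 3 f x - dx L 3 g x)
          + (dx L 1 f x - dx L 1 g x)))) ≤
        ∫ x in (0:ℝ)..L, (-2 * (dx L 1 f x - dx L 1 g x) ^ 2 + C * (f x - g x) ^ 2) := by
    intro hk
    apply key c.a10 c.a11 c.a20 c.a21 c.a30 c.b10 c.b20 c.b30
    intro f g hfg
    rw [hk, hk] at hfg
    have e0 := congrFun hfg 0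
    have e1 := congrFun hfg 1
    have e2 := congrFun hfg 2
    simp at e0 e1 e2
    refine ⟨?_, ?_, by linarith⟩
    · have : dx L 2 f 0 - dx L 2 g 0 = -(c.a10 * (f 0 - g 0)
            + c.a11 * (dx L 1 f 0 - dx L 1 g 0) + c.b10 * (f L - g L)) := by linarith
      rw [this]; ring
    · have : dx L 2 f L - dx L 2 g L = -(c.a20 * (f 0 - g 0)
            + c.a21 * (dx L 1 f 0 - dx L 1 g 0) + c.b20 * (f L - g L)) := by linarith
      rw [this]; ring
  rcases k with _ | _ | _ | _ | k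
  · exact key4 (fun v => rfl)
  · apply key 0 0 0 0 0 0 0 0
    intro f g hfg
    have e0 := congrFun hfg 0
    have e1 := congrFun hfg 1
    have e2 := congrFun hfg 2
    simp [bdry] at e0 e1 e2
    rw [e0, e1, e2]; simp
  · apply key 0 0 0 c.a21 0 0 c.b20 c.b30
    intro f g hfg
    have e0 := congrFun hfg 0
    have e1 := congrFun hfg 1
    have e2 := congrFun hfg 2
    simp [bdry] at e0 e1 e2
    refine ⟨by rw [e0]; simp, ?_, by linarith⟩
    have : dx L 2 f L - dx L 2 g L = -(0 * (f 0 - g 0)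
          + c.a21 * (dx L 1 f 0 - dx L 1 g 0) + c.b20 * (f L - g L)) := by linarith
    rw [this]; ring
  · apply key c.a10 c.a11 0 0 c.a30 0 0 0
    intro f g hfg
    have e0 := congrFun hfg 0
    have e1 := congrFun hfg 1
    have e2 := congrFun hfg 2
    simp [bdry] at e0 e1 e2
    refine ⟨?_, by rw [e1]; simp, by rw [e1]; linarith⟩
    have : dx L 2 f 0 - dx L 2 g 0 = -(c.a10 * (f 0 - g 0)
          + c.a11 * (dx L 1 f 0 - dx L 1 g 0) + 0 * (f L - g L)) := by linarith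
    rw [this]; ring
  · exact key4 (fun v => rfl)


/-! ### uniqueness of classical solutions -/

lemma IsSolution.mono {k : ℕ} {c : Coeffs} {L T T₁ : ℝ} {φ : ℝ → ℝ} {h : Fin 3 → ℝ → ℝ}
    {u : ℝ → ℝ → ℝ} (hu : IsSolution k c L T φ h u) (hT : T₁ ≤ T) :
    IsSolution k c L T₁ φ h u := by
  have hsub : Ico 0 T₁ ⊆ Ico 0 T := Ico_subset_Ico_right hT
  have hd : ∀ t ∈ Ico 0 T₁, ∀ f : ℝ → ℝ,
      derivWithin f (Ico 0 T₁) t = derivWithin f (Ico 0 T) t := by
    intro t ht f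
    apply derivWithin_congr_set
    have h1 : Iio T₁ ∈ 𝓝 t := Iio_mem_nhds ht.2
    filter_upwards [h1] with y hy
    have hy' : y < T₁ := hy
    apply propext
    constructor
    · intro h2; exact hsub h2
    · intro h2; exact ⟨h2.1, hy'⟩
  refine ⟨fun x hx => (hu.diff_t x hx).mono hsub, fun t ht => hu.diff_x t (hsub ht), ?_,
    fun j hj => (hu.cont_x j hj).mono (prod_mono hsub (subset_refl _)), ?_, hu.init,
    fun t ht => hu.bc t (hsub ht)⟩
  · refine (hu.cont_t.mono (prod_mono hsub (subset_refl _))).congr ?_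
    intro z hz
    exact hd z.1 hz.1 _
  · intro t ht x hx
    rw [hd t ht]
    exact hu.pde t (hsub ht) x hx

theorem unique {k : ℕ} {c : Coeffs} {L T : ℝ} (hL : 0 < L) {φ : ℝ → ℝ} {h : Fin 3 → ℝ → ℝ}
    {u v : ℝ → ℝ → ℝ} (hu : IsSolution k c L T φ h u) (hv : IsSolution k c L T φ h v) :
    ∀ t ∈ Ico 0 T, ∀ x ∈ Icc 0 L, v t x = u t x := by
  intro T' hT' 
  rcases hT'.1.eq_or_lt with h0 | hpos
  · intro x hx
    rw [← h0, hv.init x hx, hu.init x hx]
  have hsubC : Icc 0 T' ⊆ Ico 0 T := fun y hy => ⟨hy.1, hy.2.trans_lt hT'.2⟩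
  have hrect : IsCompact (Icc 0 T' ×ˢ Icc 0 L) := isCompact_Icc.prod isCompact_Icc
  have cu : ∀ j ≤ 3, ContinuousOn (fun z : ℝ × ℝ => dx L j (u z.1) z.2) (Icc 0 T' ×ˢ Icc 0 L) :=
    fun j hj => (hu.cont_x j hj).mono (prod_mono hsubC (subset_refl _))
  have cv : ∀ j ≤ 3, ContinuousOn (fun z : ℝ × ℝ => dx L j (v z.1) z.2) (Icc 0 T' ×ˢ Icc 0 L) :=
    fun j hj => (hv.cont_x j hj).mono (prod_mono hsubC (subset_refl _))
  have cu0 : ContinuousOn (fun z : ℝ × ℝ => u z.1 z.2) (Icc 0 T' ×ˢ Icc 0 L) := by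
    have := cu 0 (by norm_num); simpa [dx] using this
  have cv0 : ContinuousOn (fun z : ℝ × ℝ => v z.1 z.2) (Icc 0 T' ×ˢ Icc 0 L) := by
    have := cv 0 (by norm_num); simpa [dx] using this
  have cut := hu.cont_t.mono (prod_mono hsubC (subset_refl (Icc (0:ℝ) L)))
  have cvt := hv.cont_t.mono (prod_mono hsubC (subset_refl (Icc (0:ℝ) L)))
  obtain ⟨M1, hM1⟩ := hrect.exists_bound_of_continuousOn cv0
  obtain ⟨M2, hM2⟩ := hrect.exists_bound_of_continuousOn (cu 1 (by norm_num))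
  set M := max 0 (max M1 M2) with hM
  have hM0 : 0 ≤ M := le_max_left _ _
  obtain ⟨C, hC0, hC⟩ := energy_diff k c hL
  set K := C + ((1 + L) ^ 2 * M ^ 2 + 2 * (1 + L) * M) with hK
  have hK0 : 0 ≤ K := by positivity
  -- the energy and its derivative
  set Y : ℝ → ℝ := fun t => ∫ x in (0:ℝ)..L, (1 + x) * (v t x - u t x) ^ 2 with hY
  set vt : ℝ → ℝ → ℝ := fun t x => derivWithin (fun τ => v τ x) (Ico 0 T) t with hvt
  set ut : ℝ → ℝ → ℝ := fun t x => derivWithin (fun τ => u τ x) (Ico 0 T) t with hut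
  have hYc : ContinuousOn Y (Icc 0 T') := by
    apply continuousOn_param hT'.1 hL.le
    fun_prop
  have hIoo : Ioo 0 T' ⊆ Icc 0 T' := Ioo_subset_Icc_self
  have hYd : ∀ t ∈ Ioo 0 T', HasDerivAt Y
      (∫ x in (0:ℝ)..L, 2 * (1 + x) * (v t x - u t x) * (vt t x - ut t x)) t := by
    intro t ht
    apply hasDerivAt_param (F := fun t x => (1 + x) * (v t x - u t x) ^ 2)
      (F' := fun t x => 2 * (1 + x) * (v t x - u t x) * (vt t x - ut t x)) hL.le ht
    · have c1 := cv0.mono (prod_mono hIoo (subset_refl (Icc (0:ℝ) L)))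
      have c2 := cu0.mono (prod_mono hIoo (subset_refl (Icc (0:ℝ) L)))
      fun_prop
    · have c1 := cv0.mono (prod_mono hIoo (subset_refl (Icc (0:ℝ) L)))
      have c2 := cu0.mono (prod_mono hIoo (subset_refl (Icc (0:ℝ) L)))
      have c3 := cvt.mono (prod_mono hIoo (subset_refl (Icc (0:ℝ) L)))
      have c4 := cut.mono (prod_mono hIoo (subset_refl (Icc (0:ℝ) L)))
      fun_prop
    · intro s hs x hx
      have hsT : s ∈ Ico 0 T := hsubC (hIoo hs)
      have hn : Ico 0 T ∈ 𝓝 s := Ico_mem_nhds hs.1 hsT.2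
      have d1 := ((hv.diff_t x hx) s hsT).hasDerivWithinAt.hasDerivAt hn
      have d2 := ((hu.diff_t x hx) s hsT).hasDerivWithinAt.hasDerivAt hn
      have d3 := ((d1.sub d2).pow 2).const_mul (1 + x)
      refine (d3.congr_deriv ?_).congr_of_eventuallyEq ?_
      · simp [hvt, hut]; ring
      · exact Eventually.of_forall fun y => by simp
  have hbound : ∀ t ∈ Ioo 0 T',
      (∫ x in (0:ℝ)..L, 2 * (1 + x) * (v t x - u t x) * (vt t x - ut t x)) ≤ K * Y t := by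
    intro t ht
    have htT : t ∈ Ico 0 T := hsubC (hIoo ht)
    have hbc : bdry k c L (v t) = bdry k c L (u t) := by rw [hv.bc t htT, hu.bc t htT]
    have h1 := hC (v t) (u t) (hv.diff_x t htT) (hu.diff_x t htT) hbc
    have c3v := c3_of_contDiffOn hL (hv.diff_x t htT)
    have c3u := c3_of_contDiffOn hL (hu.diff_x t htT)
    have a1 := c3v.cz
    have a2 := c3v.cp
    have a4 := c3v.hr
    have b1 := c3u.cz
    have b2 := c3u.cp
    have b4 := c3u.hr
    set f1 : ℝ → ℝ := fun x => -(2 * (1 + x) * (v t x - u t x) * ((dx L 3 (v t) x - dx L 3 (u t) x)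
          + (dx L 1 (v t) x - dx L 1 (u t) x))) with hf1
    set f2 : ℝ → ℝ := fun x => -(2 * (1 + x) * (v t x - u t x) *
      (v t x * (dx L 1 (v t) x - dx L 1 (u t) x) + (v t x - u t x) * dx L 1 (u t) x)) with hf2
    set g1 : ℝ → ℝ := fun x => -2 * (dx L 1 (v t) x - dx L 1 (u t) x) ^ 2
      + C * (v t x - u t x) ^ 2 with hg1
    set g2 : ℝ → ℝ := fun x => (dx L 1 (v t) x - dx L 1 (u t) x) ^ 2
      + ((1 + L) ^ 2 * M ^ 2 + 2 * (1 + L) * M) * (v t x - u t x) ^ 2 with hg2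
    have i1 : IntervalIntegrable f1 volume 0 L := by
      apply ContinuousOn.intervalIntegrable_of_Icc hL.le; fun_prop
    have i2 : IntervalIntegrable f2 volume 0 L := by
      apply ContinuousOn.intervalIntegrable_of_Icc hL.le; fun_prop
    have j1 : IntervalIntegrable g1 volume 0 L := by
      apply ContinuousOn.intervalIntegrable_of_Icc hL.le; fun_prop
    have j2 : IntervalIntegrable g2 volume 0 L := by
      apply ContinuousOn.intervalIntegrable_of_Icc hL.le; fun_prop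
    have h2 : ∫ x in (0:ℝ)..L, f2 x ≤ ∫ x in (0:ℝ)..L, g2 x := by
      apply intervalIntegral.integral_mono_on hL.le i2 j2
      intro x hx
      have m1 : |v t x| ≤ M := by
        have := hM1 (t, x) ⟨hIoo ht, hx⟩
        simp only [Real.norm_eq_abs] at this
        exact this.trans ((le_max_left _ _).trans (le_max_right _ _))
      have m2 : |dx L 1 (u t) x| ≤ M := by
        have := hM2 (t, x) ⟨hIoo ht, hx⟩
        simp only [Real.norm_eq_abs] at this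
        exact this.trans ((le_max_right _ _).trans (le_max_right _ _))
      simp only [hf2, hg2]
      set w := v t x - u t x
      set p := dx L 1 (v t) x - dx L 1 (u t) x
      set V := v t x
      set U := dx L 1 (u t) x
      have hx0 : 0 ≤ 1 + x := by linarith [hx.1]
      have hxL : 1 + x ≤ 1 + L := by linarith [hx.2]
      have hV : V ^ 2 ≤ M ^ 2 := sq_le_sq' (by linarith [abs_le.1 m1]) (abs_le.1 m1).2
      have e1 : -(2 * (1 + x) * w * (V * p)) ≤ p ^ 2 + (1 + L) ^ 2 * M ^ 2 * w ^ 2 := by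
        have : 0 ≤ (p + (1 + x) * w * V) ^ 2 := sq_nonneg _
        have e3 : ((1 + x) * w * V) ^ 2 ≤ (1 + L) ^ 2 * M ^ 2 * w ^ 2 := by
          calc ((1 + x) * w * V) ^ 2 = (1 + x) ^ 2 * V ^ 2 * w ^ 2 := by ring
            _ ≤ (1 + L) ^ 2 * M ^ 2 * w ^ 2 := by gcongr
        nlinarith
      have e2 : -(2 * (1 + x) * w * (w * U)) ≤ 2 * (1 + L) * M * w ^ 2 := by
        have e4 : -(2 * (1 + x) * w * (w * U)) = 2 * (1 + x) * (-U) * w ^ 2 := by ring
        rw [e4]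
        have : -U ≤ M := by linarith [(abs_le.1 m2).1]
        calc 2 * (1 + x) * (-U) * w ^ 2 ≤ 2 * (1 + x) * M * w ^ 2 := by gcongr
          _ ≤ 2 * (1 + L) * M * w ^ 2 := by gcongr
      have e5 : -(2 * (1 + x) * w * (V * p + w * U)) =
        -(2 * (1 + x) * w * (V * p)) + -(2 * (1 + x) * w * (w * U)) := by ring
      rw [e5]
      calc _ ≤ (p ^ 2 + (1 + L) ^ 2 * M ^ 2 * w ^ 2) + 2 * (1 + L) * M * w ^ 2 := add_le_add e1 e2
        _ = _ := by ring
    have h3 : ∫ x in (0:ℝ)..L, 2 * (1 + x) * (v t x - u t x) * (vt t x - ut t x)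
        = ∫ x in (0:ℝ)..L, (f1 x + f2 x) := by
      apply intervalIntegral.integral_congr
      intro x hx
      rw [uIcc_of_le hL.le] at hx
      have e1 := hv.pde t htT x hx
      have e2 := hu.pde t htT x hx
      simp only [hf1, hf2, hvt, hut]
      have e3 : derivWithin (fun τ => v τ x) (Ico 0 T) t = -(dx L 1 (v t) x + dx L 3 (v t) x
        + v t x * dx L 1 (v t) x) := by linarith
      have e4 : derivWithin (fun τ => u τ x) (Ico 0 T) t = -(dx L 1 (u t) x + dx L 3 (u t) x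
        + u t x * dx L 1 (u t) x) := by linarith
      rw [e3, e4]; ring
    rw [h3, intervalIntegral.integral_add i1 i2]
    have h4 : ∫ x in (0:ℝ)..L, (g1 x + g2 x) ≤ ∫ x in (0:ℝ)..L, K * ((1 + x) * (v t x - u t x) ^ 2) := by
      apply intervalIntegral.integral_mono_on hL.le (j1.add j2)
      · apply ContinuousOn.intervalIntegrable_of_Icc hL.le; fun_prop
      · intro x hx
        simp only [hg1, hg2]
        have e1 : K * (1 * (v t x - u t x) ^ 2) ≤ K * ((1 + x) * (v t x - u t x) ^ 2) := by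
          gcongr; linarith [hx.1]
        have e2 := sq_nonneg (dx L 1 (v t) x - dx L 1 (u t) x)
        rw [hK] at e1 ⊢
        nlinarith
    rw [intervalIntegral.integral_add j1 j2, intervalIntegral.integral_const_mul] at h4
    have h5 : (∫ x in (0:ℝ)..L, f1 x) ≤ ∫ x in (0:ℝ)..L, g1 x := h1
    linarith
  -- Gronwall
  set Z : ℝ → ℝ := fun t => Real.exp (-(K * t)) * Y t with hZ
  have hZa : AntitoneOn Z (Icc 0 T') := by
    apply antitoneOn_of_deriv_nonpos (convex_Icc 0 T')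
    · exact (by fun_prop : Continuous fun t => Real.exp (-(K * t))).continuousOn.mul hYc
    · rw [interior_Icc]
      intro t ht
      have d1 : HasDerivAt (fun t => Real.exp (-(K * t))) (Real.exp (-(K * t)) * (-(K * 1))) t :=
        (((hasDerivAt_id t).const_mul K).neg).exp
      exact (d1.mul (hYd t ht)).differentiableAt.differentiableWithinAt
    · rw [interior_Icc]
      intro t ht
      have d1 : HasDerivAt (fun t => Real.exp (-(K * t))) (Real.exp (-(K * t)) * (-(K * 1))) t :=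
        (((hasDerivAt_id t).const_mul K).neg).exp
      have d2 := d1.mul (hYd t ht)
      have : deriv Z t = _ := d2.deriv
      rw [this]
      have h1 := hbound t ht
      have h2 := Real.exp_pos (-(K * t))
      nlinarith
  have hY0 : Y 0 = 0 := by
    simp only [hY]
    rw [intervalIntegral.integral_congr (g := fun _ => (0:ℝ))]
    · simp
    · intro x hx
      rw [uIcc_of_le hL.le] at hx
      simp [hv.init x hx, hu.init x hx]
  have hYT : Y T' ≤ 0 := by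
    have h1 := hZa (left_mem_Icc.2 hT'.1) (right_mem_Icc.2 hT'.1) hT'.1
    simp only [hZ, hY0, mul_zero] at h1
    have h2 := Real.exp_pos (-(K * T'))
    by_contra h3
    push Not at h3
    have := mul_pos h2 h3
    linarith
  intro x hx
  by_contra hne
  have hcw : ContinuousOn (fun x => (1 + x) * (v T' x - u T' x) ^ 2) (Icc 0 L) := by
    have a1 := (c3_of_contDiffOn hL (hv.diff_x T' hT')).cz
    have b1 := (c3_of_contDiffOn hL (hu.diff_x T' hT')).cz
    fun_prop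
  have hpos2 : 0 < ∫ x in (0:ℝ)..L, (1 + x) * (v T' x - u T' x) ^ 2 := by
    apply intervalIntegral.integral_pos hL hcw
    · intro y hy
      have : 0 ≤ 1 + y := by linarith [hy.1]
      positivity
    · refine ⟨x, hx, ?_⟩
      have h1 : 0 < 1 + x := by linarith [hx.1]
      have h2 : v T' x - u T' x ≠ 0 := sub_ne_zero.2 hne
      positivity
  exact absurd hYT (not_le.2 hpos2)


/-- right derivative of a parametric integral -/
lemma hasDerivWithinAt_param {F F' : ℝ → ℝ → ℝ} {τ L : ℝ} (hτ : 0 < τ) (hL : 0 ≤ L)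
    (hF : ContinuousOn (fun z : ℝ × ℝ => F z.1 z.2) (Icc 0 τ ×ˢ Icc 0 L))
    (hF' : ContinuousOn (fun z : ℝ × ℝ => F' z.1 z.2) (Icc 0 τ ×ˢ Icc 0 L))
    (hd : ∀ t ∈ Ioo 0 τ, ∀ x ∈ Icc 0 L, HasDerivAt (fun t => F t x) (F' t x) t) :
    ∀ t ∈ Ico 0 τ, HasDerivWithinAt (fun t => ∫ x in (0:ℝ)..L, F t x)
      (∫ x in (0:ℝ)..L, F' t x) (Ici t) t := by
  have hsub : Ioo 0 τ ⊆ Icc 0 τ := Ioo_subset_Icc_self
  have hint : ∀ t ∈ Ioo 0 τ, HasDerivAt (fun t => ∫ x in (0:ℝ)..L, F t x)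
      (∫ x in (0:ℝ)..L, F' t x) t := fun t ht =>
    hasDerivAt_param hL ht (hF.mono (prod_mono hsub (subset_refl _)))
      (hF'.mono (prod_mono hsub (subset_refl _))) hd
  intro t ht
  rcases ht.1.eq_or_lt with h0 | hpos
  · subst h0
    have hs : Ioo 0 τ ∈ 𝓝[>] (0:ℝ) := Ioo_mem_nhdsGT hτ
    apply hasDerivWithinAt_Ici_of_tendsto_deriv (s := Ioo 0 τ)
    · intro s hs
      exact (hint s hs).differentiableAt.differentiableWithinAt
    · exact ((continuousOn_param hτ.le hL hF) 0 ⟨le_rfl, hτ.le⟩).mono hsub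
    · exact hs
    · have hc := (continuousOn_param hτ.le hL hF') 0 ⟨le_rfl, hτ.le⟩
      have h1 : Tendsto (fun t => ∫ x in (0:ℝ)..L, F' t x) (𝓝[>] 0) (𝓝 (∫ x in (0:ℝ)..L, F' 0 x)) := by
        apply hc.tendsto.mono_left
        rw [nhdsWithin_le_iff]
        filter_upwards [hs] with s hs
        exact hsub hs
      refine h1.congr' ?_
      filter_upwards [hs] with s hs
      exact (hint s hs).deriv.symm
  · exact (hint t ⟨hpos, ht.2⟩).hasDerivWithinAt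

/-- pointwise bound of a `C¹` function by its `H¹` norm -/
lemma sup_sq_bound {L : ℝ} (hL : 0 < L) {z p q r : ℝ → ℝ} (h : C3 L z p q r) {ε : ℝ} (hε : 0 < ε)
    {y : ℝ} (hy : y ∈ Icc 0 L) :
    z y ^ 2 ≤ ∫ x in (0:ℝ)..L, (ε * p x ^ 2 + (1 / L + 1 / ε) * z x ^ 2) := by
  have cz := h.cz
  have cp := h.cp
  -- left part
  have hsub1 : Icc 0 y ⊆ Icc 0 L := Icc_subset_Icc_right hy.2
  have hsub2 : Icc y L ⊆ Icc 0 L := Icc_subset_Icc_left hy.1
  have key1 : ∫ x in (0:ℝ)..y, (z x ^ 2 + 2 * x * z x * p x) = y * z y ^ 2 := by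
    have := integral_eq_sub_of_hasDerivAt_of_le hy.1 (f := fun x => x * z x ^ 2)
      (f' := fun x => z x ^ 2 + 2 * x * z x * p x) ?_ ?_ ?_
    · rw [this]; ring
    · exact continuousOn_id.mul ((cz.mono hsub1).pow 2)
    · intro x hx
      have hx' : x ∈ Ioo 0 L := ⟨hx.1, hx.2.trans_le hy.2⟩
      have dz := (h.h1 x (Ioo_subset_Icc_self hx')).hasDerivAt (Icc_mem_nhds hx'.1 hx'.2)
      have d := (hasDerivAt_id x).mul (dz.pow 2)
      refine (d.congr_deriv ?_).congr_of_eventuallyEq (Eventually.of_forall fun y => ?_)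
      · simp; ring
      · simp
    · apply ContinuousOn.intervalIntegrable_of_Icc hy.1
      have := cz.mono hsub1
      have := cp.mono hsub1
      fun_prop
  have key2 : ∫ x in y..L, (z x ^ 2 + 2 * (x - L) * z x * p x) = (L - y) * z y ^ 2 := by
    have := integral_eq_sub_of_hasDerivAt_of_le hy.2 (f := fun x => (x - L) * z x ^ 2)
      (f' := fun x => z x ^ 2 + 2 * (x - L) * z x * p x) ?_ ?_ ?_
    · rw [this]; ring
    · have := cz.mono hsub2
      fun_prop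
    · intro x hx
      have hx' : x ∈ Ioo 0 L := ⟨hy.1.trans_lt hx.1, hx.2⟩
      have dz := (h.h1 x (Ioo_subset_Icc_self hx')).hasDerivAt (Icc_mem_nhds hx'.1 hx'.2)
      have d := ((hasDerivAt_id x).sub_const L).mul (dz.pow 2)
      refine (d.congr_deriv ?_).congr_of_eventuallyEq (Eventually.of_forall fun y => ?_)
      · simp; ring
      · simp
    · apply ContinuousOn.intervalIntegrable_of_Icc hy.2
      have := cz.mono hsub2
      have := cp.mono hsub2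
      fun_prop
  have e : ∀ x, L * (ε * p x ^ 2 + (1 / L + 1 / ε) * z x ^ 2)
      = z x ^ 2 + L * (ε * p x ^ 2 + z x ^ 2 / ε) := by
    intro x; field_simp; ring
  have le1 : ∫ x in (0:ℝ)..y, (z x ^ 2 + 2 * x * z x * p x) ≤
      ∫ x in (0:ℝ)..y, (L * (ε * p x ^ 2 + (1 / L + 1 / ε) * z x ^ 2)) := by
    have := cz.mono hsub1
    have := cp.mono hsub1
    apply intervalIntegral.integral_mono_on hy.1
    · apply ContinuousOn.intervalIntegrable_of_Icc hy.1; fun_prop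
    · apply ContinuousOn.intervalIntegrable_of_Icc hy.1; fun_prop
    · intro x hx
      have := young_aux (z := z x) (p := p x) hL hε (by linarith [hx.1]) (hx.2.trans hy.2)
      rw [e]; linarith
  have le2 : ∫ x in y..L, (z x ^ 2 + 2 * (x - L) * z x * p x) ≤
      ∫ x in y..L, (L * (ε * p x ^ 2 + (1 / L + 1 / ε) * z x ^ 2)) := by
    have := cz.mono hsub2
    have := cp.mono hsub2
    apply intervalIntegral.integral_mono_on hy.2
    · apply ContinuousOn.intervalIntegrable_of_Icc hy.2; fun_prop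
    · apply ContinuousOn.intervalIntegrable_of_Icc hy.2; fun_prop
    · intro x hx
      have := young_aux (z := z x) (p := p x) (x := x - L) hL hε (by linarith [hx.1, hy.1])
        (by linarith [hx.2])
      rw [e]; linarith
  have i1 : IntervalIntegrable (fun x => L * (ε * p x ^ 2 + (1 / L + 1 / ε) * z x ^ 2)) volume 0 y := by
    have := cz.mono hsub1
    have := cp.mono hsub1
    apply ContinuousOn.intervalIntegrable_of_Icc hy.1; fun_prop
  have i2 : IntervalIntegrable (fun x => L * (ε * p x ^ 2 + (1 / L + 1 / ε) * z x ^ 2)) volume y L := by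
    have := cz.mono hsub2
    have := cp.mono hsub2
    apply ContinuousOn.intervalIntegrable_of_Icc hy.2; fun_prop
  have hadd := intervalIntegral.integral_add_adjacent_intervals i1 i2
  rw [intervalIntegral.integral_const_mul (a := 0) (b := L)] at hadd
  have : L * z y ^ 2 ≤ L * ∫ x in (0:ℝ)..L, (ε * p x ^ 2 + (1 / L + 1 / ε) * z x ^ 2) := by
    rw [← hadd]
    calc L * z y ^ 2 = y * z y ^ 2 + (L - y) * z y ^ 2 := by ring
      _ ≤ _ := by rw [← key1, ← key2]; exact add_le_add le1 le2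
  exact le_of_mul_le_mul_left this hL

/-- energy inequality for a function whose boundary values are those of `v` with `𝓑_k v = 0` -/
lemma energy_hom (k : ℕ) (c : Coeffs) {L : ℝ} (hL : 0 < L) :
    ∃ C, 0 ≤ C ∧ ∀ v z p q r : ℝ → ℝ, C3 L z p q r → bdry k c L v = 0 →
      z 0 = v 0 → p 0 = dx L 1 v 0 → q 0 = dx L 2 v 0 →
      z L = v L → p L = dx L 1 v L → q L = dx L 2 v L →
      ∫ x in (0:ℝ)..L, (-(2 * (1 + x) * z x * (r x + p x))) ≤
        ∫ x in (0:ℝ)..L, (-2 * p x ^ 2 + C * z x ^ 2) := by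
  have key : ∀ a10 a11 a20 a21 a30 b10 b20 b30 : ℝ,
      (∀ v : ℝ → ℝ, bdry k c L v = 0 →
        (v 0 * dx L 2 v 0 = -(v 0 * (a10 * v 0 + a11 * dx L 1 v 0 + b10 * v L))) ∧
        (v L * dx L 2 v L = -(v L * (a20 * v 0 + a21 * dx L 1 v 0 + b20 * v L))) ∧
        (dx L 1 v L = -(a30 * v 0 + b30 * v L))) →
      ∃ C, 0 ≤ C ∧ ∀ v z p q r : ℝ → ℝ, C3 L z p q r → bdry k c L v = 0 →
      z 0 = v 0 → p 0 = dx L 1 v 0 → q 0 = dx L 2 v 0 →
      z L = v L → p L = dx L 1 v L → q L = dx L 2 v L →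
      ∫ x in (0:ℝ)..L, (-(2 * (1 + x) * z x * (r x + p x))) ≤
        ∫ x in (0:ℝ)..L, (-2 * p x ^ 2 + C * z x ^ 2) := by
    intro a10 a11 a20 a21 a30 b10 b20 b30 hbc
    obtain ⟨C, hC0, hC⟩ := energy_bound a10 a11 a20 a21 a30 b10 b20 b30 hL
    refine ⟨C, hC0, fun v z p q r h hv e1 e2 e3 e4 e5 e6 => ?_⟩
    obtain ⟨h1, h2, h3⟩ := hbc v hv
    exact hC z p q r h (by rw [e1, e2, e3, e4]; exact h1) (by rw [e1, e2, e4, e6]; exact h2)
      (by rw [e5, e1, e4]; exact h3)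
  have key4 : (∀ v, bdry k c L v = ![dx L 2 v 0 + (c.a10 * v 0 + c.a11 * dx L 1 v 0 + c.b10 * v L),
           dx L 1 v L + (c.a30 * v 0 + c.b30 * v L),
           dx L 2 v L + (c.a20 * v 0 + c.a21 * dx L 1 v 0 + c.b20 * v L)]) →
      ∃ C, 0 ≤ C ∧ ∀ v z p q r : ℝ → ℝ, C3 L z p q r → bdry k c L v = 0 →
      z 0 = v 0 → p 0 = dx L 1 v 0 → q 0 = dx L 2 v 0 →
      z L = v L → p L = dx L 1 v L → q L = dx L 2 v L →
      ∫ x in (0:ℝ)..L, (-(2 * (1 + x) * z x * (r x + p x))) ≤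
        ∫ x in (0:ℝ)..L, (-2 * p x ^ 2 + C * z x ^ 2) := by
    intro hk
    apply key c.a10 c.a11 c.a20 c.a21 c.a30 c.b10 c.b20 c.b30
    intro v hv
    rw [hk] at hv
    have e0 := congrFun hv 0
    have e1 := congrFun hv 1
    have e2 := congrFun hv 2
    simp at e0 e1 e2
    refine ⟨?_, ?_, by linarith⟩
    · have : dx L 2 v 0 = -(c.a10 * v 0 + c.a11 * dx L 1 v 0 + c.b10 * v L) := by linarith
      rw [this]; ring
    · have : dx L 2 v L = -(c.a20 * v 0 + c.a21 * dx L 1 v 0 + c.b20 * v L) := by linarith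
      rw [this]; ring
  rcases k with _ | _ | _ | _ | k
  · exact key4 (fun v => rfl)
  · apply key 0 0 0 0 0 0 0 0
    intro v hv
    have e0 := congrFun hv 0
    have e1 := congrFun hv 1
    have e2 := congrFun hv 2
    simp [bdry] at e0 e1 e2
    rw [e0, e1, e2]; simp
  · apply key 0 0 0 c.a21 0 0 c.b20 c.b30
    intro v hv
    have e0 := congrFun hv 0
    have e1 := congrFun hv 1
    have e2 := congrFun hv 2
    simp [bdry] at e0 e1 e2
    refine ⟨by rw [e0]; simp, ?_, by linarith⟩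
    have : dx L 2 v L = -(0 * v 0 + c.a21 * dx L 1 v 0 + c.b20 * v L) := by linarith
    rw [this]; ring
  · apply key c.a10 c.a11 0 0 c.a30 0 0 0
    intro v hv
    have e0 := congrFun hv 0
    have e1 := congrFun hv 1
    have e2 := congrFun hv 2
    simp [bdry] at e0 e1 e2
    refine ⟨?_, by rw [e1]; simp, by rw [e1]; linarith⟩
    have : dx L 2 v 0 = -(c.a10 * v 0 + c.a11 * dx L 1 v 0 + 0 * v L) := by linarith
    rw [this]; ring
  · exact key4 (fun v => rfl)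



lemma ap_zero_left {L : ℝ} {A A1 A2 A3 : ℝ → ℝ} {M : ℝ} (h : Profile L A A1 A2 A3 M)
    {N t : ℝ} (ht : 0 ≤ t) (hN : 3 * N ^ 2 * t ≤ L / 4) (hL : 0 < L) :
    ap A N t 0 = 0 ∧ apx A A1 N t 0 = 0 ∧ apxx A A1 A2 N t 0 = 0 := by
  have hy : (0:ℝ) + 3 * N ^ 2 * t ≤ 3 * L / 8 := by linarith
  unfold ap apx apxx
  rw [h.s0 _ (Or.inl hy), h.s1 _ (Or.inl hy), h.s2 _ (Or.inl hy)]
  simp

lemma ap_zero_right {L : ℝ} {A A1 A2 A3 : ℝ → ℝ} {M : ℝ} (h : Profile L A A1 A2 A3 M)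
    {N t : ℝ} (ht : 0 ≤ t) (hL : 0 < L) :
    ap A N t L = 0 ∧ apx A A1 N t L = 0 ∧ apxx A A1 A2 N t L = 0 := by
  have hy : 5 * L / 8 ≤ L + 3 * N ^ 2 * t := by nlinarith [mul_nonneg (sq_nonneg N) ht]
  unfold ap apx apxx
  rw [h.s0 _ (Or.inr hy), h.s1 _ (Or.inr hy), h.s2 _ (Or.inr hy)]
  simp

lemma cont_ap {L : ℝ} {A A1 A2 A3 : ℝ → ℝ} {M : ℝ} (h : Profile L A A1 A2 A3 M) (N : ℝ) :
    Continuous (fun z : ℝ × ℝ => ap A N z.1 z.2) ∧
    Continuous (fun z : ℝ × ℝ => apx A A1 N z.1 z.2) ∧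
    Continuous (fun z : ℝ × ℝ => apxx A A1 A2 N z.1 z.2) ∧
    Continuous (fun z : ℝ × ℝ => apxxx A A1 A2 A3 N z.1 z.2) ∧
    Continuous (fun z : ℝ × ℝ => apt A A1 N z.1 z.2) := by
  have c0 := h.cA
  have c1 := h.cA1
  have c2 := h.cA2
  have c3 := h.c3
  unfold ap apx apxx apxxx apt
  refine ⟨by fun_prop, by fun_prop, by fun_prop, by fun_prop, by fun_prop⟩

lemma ap_C3 {L : ℝ} {A A1 A2 A3 : ℝ → ℝ} {M : ℝ} (h : Profile L A A1 A2 A3 M) (N t : ℝ) :
    C3 L (ap A N t) (apx A A1 N t) (apxx A A1 A2 N t) (apxxx A A1 A2 A3 N t) :=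
  ⟨fun x _ => (ap_x h N t x).hasDerivWithinAt, fun x _ => (ap_xx h N t x).hasDerivWithinAt,
    fun x _ => (ap_xxx h N t x).hasDerivWithinAt,
    ((cont_ap h N).2.2.2.1.comp (by fun_prop : Continuous fun x : ℝ => (t, x))).continuousOn⟩

lemma pointwise {x ρ Cb N S zz pp a0 a1 rr : ℝ} (hw0 : 0 ≤ 1 + x) (hw1 : 1 + x ≤ ρ) (hCb0 : 0 ≤ Cb)
    (hN1 : 1 ≤ N) (hS0 : 0 ≤ S) (hs : zz ^ 2 ≤ S) (b1 : |a0| ≤ Cb * N) (b2 : |a1| ≤ Cb * N ^ 2)
    (b3 : |rr| ≤ Cb * N ^ 2) :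
    -(2 * (1 + x) * zz * (zz * pp + a0 * pp + zz * a1 + rr))
      ≤ pp ^ 2 + (2 * ρ ^ 2 * S + (2 * ρ ^ 2 * Cb ^ 2 + 2 * ρ * Cb + ρ ^ 2) * N ^ 2) * zz ^ 2
        + Cb ^ 2 * N ^ 2 := by
  have hN0 : 0 < N := by linarith
  have hρ0 : 0 ≤ ρ := hw0.trans hw1
  have hw2 : (1 + x) ^ 2 ≤ ρ ^ 2 := by gcongr
  have ha0 : a0 ^ 2 ≤ Cb ^ 2 * N ^ 2 := by
    rw [← mul_pow, ← sq_abs a0]; gcongr
  have hrr : rr ^ 2 ≤ Cb ^ 2 * N ^ 4 := by
    have : Cb ^ 2 * N ^ 4 = (Cb * N ^ 2) ^ 2 := by ring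
    rw [this, ← sq_abs rr]; gcongr
  have t1 : -(2 * (1 + x) * zz * (zz * pp)) ≤ 1 / 2 * pp ^ 2 + 2 * ρ ^ 2 * S * zz ^ 2 := by
    have e1 : 0 ≤ 1 / 2 * (pp + 2 * (1 + x) * zz * zz) ^ 2 := by positivity
    have e2 : 2 * ((1 + x) ^ 2) * (zz ^ 2) * zz ^ 2 ≤ 2 * ρ ^ 2 * S * zz ^ 2 := by gcongr
    nlinarith
  have t2 : -(2 * (1 + x) * zz * (a0 * pp)) ≤ 1 / 2 * pp ^ 2 + 2 * ρ ^ 2 * Cb ^ 2 * N ^ 2 * zz ^ 2 := by
    have e1 : 0 ≤ 1 / 2 * (pp + 2 * (1 + x) * zz * a0) ^ 2 := by positivity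
    have e2 : 2 * ((1 + x) ^ 2) * (a0 ^ 2) * zz ^ 2 ≤ 2 * ρ ^ 2 * (Cb ^ 2 * N ^ 2) * zz ^ 2 := by gcongr
    nlinarith
  have t3 : -(2 * (1 + x) * zz * (zz * a1)) ≤ 2 * ρ * Cb * N ^ 2 * zz ^ 2 := by
    have e1 : -a1 ≤ Cb * N ^ 2 := by linarith [(abs_le.1 b2).1]
    have e2 : -(2 * (1 + x) * zz * (zz * a1)) = 2 * (1 + x) * (-a1) * zz ^ 2 := by ring
    rw [e2]
    have hpos' : 0 ≤ Cb * N ^ 2 := by positivity
    calc 2 * (1 + x) * (-a1) * zz ^ 2 ≤ 2 * (1 + x) * (Cb * N ^ 2) * zz ^ 2 := by gcongr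
      _ ≤ 2 * ρ * (Cb * N ^ 2) * zz ^ 2 := by gcongr
      _ = _ := by ring
  have t4 : -(2 * (1 + x) * zz * rr) ≤ ρ ^ 2 * N ^ 2 * zz ^ 2 + Cb ^ 2 * N ^ 2 := by
    have e1 : 0 ≤ ((1 + x) * N * zz + rr / N) ^ 2 := sq_nonneg _
    have e2 : ((1 + x) * N * zz + rr / N) ^ 2
        = (1 + x) ^ 2 * N ^ 2 * zz ^ 2 + 2 * (1 + x) * zz * rr + rr ^ 2 / N ^ 2 := by
      field_simp
      ring
    have e3 : rr ^ 2 / N ^ 2 ≤ Cb ^ 2 * N ^ 2 := by
      rw [div_le_iff₀ (by positivity)]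
      calc rr ^ 2 ≤ Cb ^ 2 * N ^ 4 := hrr
        _ = _ := by ring
    have e4 : (1 + x) ^ 2 * N ^ 2 * zz ^ 2 ≤ ρ ^ 2 * N ^ 2 * zz ^ 2 := by gcongr
    linarith
  have e5 : -(2 * (1 + x) * zz * (zz * pp + a0 * pp + zz * a1 + rr))
      = -(2 * (1 + x) * zz * (zz * pp)) + -(2 * (1 + x) * zz * (a0 * pp))
        + -(2 * (1 + x) * zz * (zz * a1)) + -(2 * (1 + x) * zz * rr) := by ring
  rw [e5]
  have e6 : (2 * ρ ^ 2 * S + (2 * ρ ^ 2 * Cb ^ 2 + 2 * ρ * Cb + ρ ^ 2) * N ^ 2) * zz ^ 2 = 2 * ρ ^ 2 * S * zz ^ 2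
      + 2 * ρ ^ 2 * Cb ^ 2 * N ^ 2 * zz ^ 2 + 2 * ρ * Cb * N ^ 2 * zz ^ 2
      + ρ ^ 2 * N ^ 2 * zz ^ 2 := by ring
  linarith

set_option maxHeartbeats 4000000 in
lemma z_bound (k : ℕ) (c : Coeffs) {L : ℝ} (hL : 0 < L) {A A1 A2 A3 : ℝ → ℝ} {M : ℝ}
    (h : Profile L A A1 A2 A3 M) :
    ∃ R N₀, 1 ≤ R ∧ 1 ≤ N₀ ∧ ∀ N, N₀ ≤ N → ∀ T u,
      IsSolution k c L T (fun x => ap A N 0 x) (fun _ _ => 0) u →
      ∀ τ ∈ Ico 0 T, τ ≤ L / (12 * N ^ 2) →
      ∫ x in (0:ℝ)..L, (u τ x - ap A N τ x) ^ 2 ≤ R := by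
  obtain ⟨CE, hCE0, hCE⟩ := energy_hom k c hL
  obtain ⟨Cb, hCb0, hCb⟩ := bounds h
  set ρ := 1 + L with hρ
  have hρ0 : 0 < ρ := by positivity
  set c0 := 2 * ρ ^ 2 * Cb ^ 2 + 2 * ρ * Cb + ρ ^ 2 with hc0
  have hc00 : 0 ≤ c0 := by positivity
  set C4 := 1 + c0 + Cb ^ 2 * L with hC4
  have hC40 : 0 < C4 := by positivity
  set C5 := C4 + 1 with hC5
  have hC50 : 0 < C5 := by positivity
  set R := Real.exp (C5 * (L / 12)) with hR
  have hR1 : 1 ≤ R := Real.one_le_exp (by positivity)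
  have hR0 : 0 < R := by linarith
  set ε := 1 / (4 * ρ ^ 2 * R) with hε
  have hε0 : 0 < ε := by positivity
  set Kε := 1 / L + 1 / ε with hKε
  have hKε0 : 0 < Kε := by positivity
  refine ⟨R, 1 + CE + 2 * ρ ^ 2 * R * Kε, hR1, by
    have : 0 ≤ 2 * ρ ^ 2 * R * Kε := by positivity
    linarith, ?_⟩
  intro N hN T u hu τ hτ hτN
  have hN1 : 1 ≤ N := by
    have : 0 ≤ 2 * ρ ^ 2 * R * Kε := by positivity
    linarith
  have hN0 : 0 < N := by linarith
  have hNN : CE + 2 * ρ ^ 2 * R * Kε ≤ N ^ 2 := by nlinarith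
  rcases hτ.1.eq_or_lt with h0 | hpos
  · subst h0
    have : ∫ x in (0:ℝ)..L, (u 0 x - ap A N 0 x) ^ 2 = ∫ x in (0:ℝ)..L, (0:ℝ) := by
      apply intervalIntegral.integral_congr
      intro x hx
      rw [uIcc_of_le hL.le] at hx
      simp [hu.init x hx]
    rw [this]; simp; linarith
  have hsubC : Icc 0 τ ⊆ Ico 0 T := fun y hy => ⟨hy.1, hy.2.trans_lt hτ.2⟩
  obtain ⟨ca, cax, caxx, caxxx, cat⟩ := cont_ap h N
  have cu : ∀ j ≤ 3, ContinuousOn (fun z : ℝ × ℝ => dx L j (u z.1) z.2) (Icc 0 τ ×ˢ Icc 0 L) :=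
    fun j hj => (hu.cont_x j hj).mono (prod_mono hsubC (subset_refl _))
  have cu0 : ContinuousOn (fun z : ℝ × ℝ => u z.1 z.2) (Icc 0 τ ×ˢ Icc 0 L) := by
    have := cu 0 (by norm_num); simpa [dx] using this
  have cut := hu.cont_t.mono (prod_mono hsubC (subset_refl (Icc (0:ℝ) L)))
  set ut : ℝ → ℝ → ℝ := fun t x => derivWithin (fun τ => u τ x) (Ico 0 T) t with hut
  set Y : ℝ → ℝ := fun t => ∫ x in (0:ℝ)..L, (1 + x) * (u t x - ap A N t x) ^ 2 with hY
  set Y' : ℝ → ℝ := fun t => ∫ x in (0:ℝ)..L,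
    2 * (1 + x) * (u t x - ap A N t x) * (ut t x - apt A A1 N t x) with hY'
  have hFc : ContinuousOn (fun z : ℝ × ℝ => (1 + z.2) * (u z.1 z.2 - ap A N z.1 z.2) ^ 2)
      (Icc 0 τ ×ˢ Icc 0 L) := by
    have := ca.continuousOn (s := Icc 0 τ ×ˢ Icc 0 L)
    fun_prop
  have hF'c : ContinuousOn (fun z : ℝ × ℝ => 2 * (1 + z.2) * (u z.1 z.2 - ap A N z.1 z.2)
      * (ut z.1 z.2 - apt A A1 N z.1 z.2)) (Icc 0 τ ×ˢ Icc 0 L) := by
    have := ca.continuousOn (s := Icc 0 τ ×ˢ Icc 0 L)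
    have := cat.continuousOn (s := Icc 0 τ ×ˢ Icc 0 L)
    fun_prop
  have hYc : ContinuousOn Y (Icc 0 τ) := continuousOn_param hpos.le hL.le hFc
  have hYd : ∀ t ∈ Ico 0 τ, HasDerivWithinAt Y (Y' t) (Ici t) t := by
    apply hasDerivWithinAt_param hpos hL.le hFc hF'c
    intro s hs x hx
    have hsT : s ∈ Ico 0 T := hsubC (Ioo_subset_Icc_self hs)
    have hn : Ico 0 T ∈ 𝓝 s := Ico_mem_nhds hs.1 hsT.2
    have d1 := ((hu.diff_t x hx) s hsT).hasDerivWithinAt.hasDerivAt hn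
    have d3 := ((d1.sub (ap_t h N s x)).pow 2).const_mul (1 + x)
    refine (d3.congr_deriv ?_).congr_of_eventuallyEq ?_
    · simp [hut]; ring
    · exact Eventually.of_forall fun y => by simp
  -- instantaneous inequality
  have hstep : ∀ t ∈ Ico 0 τ, Y t ≤ R → Y' t ≤ C4 * N ^ 2 * (Y t + 1) := by
    intro t ht hYR
    have htT : t ∈ Ico 0 T := hsubC (Ico_subset_Icc_self ht)
    have h3 : 3 * N ^ 2 * t ≤ L / 4 := by
      have h4 : t ≤ L / (12 * N ^ 2) := ht.2.le.trans hτN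
      rw [le_div_iff₀ (by positivity)] at h4
      nlinarith
    obtain ⟨l0, l1, l2⟩ := ap_zero_left h ht.1 h3 hL
    obtain ⟨r0, r1, r2⟩ := ap_zero_right (N := N) h ht.1 hL
    have c3u := c3_of_contDiffOn hL (hu.diff_x t htT)
    have c3a := ap_C3 h N t
    have hC3 := c3u.sub c3a
    have hbc0 : bdry k c L (u t) = 0 := by rw [hu.bc t htT]; rfl
    have hen := hCE (u t) _ _ _ _ hC3 hbc0 (by simp [l0]) (by simp [l1]) (by simp [l2])
      (by simp [r0]) (by simp [r1]) (by simp [r2])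
    set z : ℝ → ℝ := fun x => u t x - ap A N t x with hz
    set p : ℝ → ℝ := fun x => dx L 1 (u t) x - apx A A1 N t x with hp
    set r : ℝ → ℝ := fun x => dx L 3 (u t) x - apxxx A A1 A2 A3 N t x with hr
    have cz : ContinuousOn z (Icc 0 L) := hC3.cz
    have cp : ContinuousOn p (Icc 0 L) := hC3.cp
    have cr : ContinuousOn r (Icc 0 L) := hC3.hr
    have cta : ContinuousOn (fun x => ap A N t x) (Icc 0 L) := c3a.cz
    have ctax : ContinuousOn (fun x => apx A A1 N t x) (Icc 0 L) := c3a.cp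
    have cres : ContinuousOn (fun x => res A A1 A2 A3 N t x) (Icc 0 L) := by
      unfold res
      have e1 : ContinuousOn (fun x => apt A A1 N t x) (Icc 0 L) :=
        (cat.comp (by fun_prop : Continuous fun x : ℝ => (t, x))).continuousOn
      exact ((e1.add ctax).add c3a.hr).add (cta.mul ctax)
    set P := ∫ x in (0:ℝ)..L, p x ^ 2 with hP
    set Z := ∫ x in (0:ℝ)..L, z x ^ 2 with hZ
    have iz : IntervalIntegrable (fun x => z x ^ 2) volume 0 L := by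
      apply ContinuousOn.intervalIntegrable_of_Icc hL.le; fun_prop
    have ip : IntervalIntegrable (fun x => p x ^ 2) volume 0 L := by
      apply ContinuousOn.intervalIntegrable_of_Icc hL.le; fun_prop
    have hP0 : 0 ≤ P := intervalIntegral.integral_nonneg hL.le (fun x _ => sq_nonneg _)
    have hZ0 : 0 ≤ Z := intervalIntegral.integral_nonneg hL.le (fun x _ => sq_nonneg _)
    have hZY : Z ≤ Y t := by
      apply intervalIntegral.integral_mono_on hL.le iz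
      · apply ContinuousOn.intervalIntegrable_of_Icc hL.le
        have : ContinuousOn (fun x => (1 + x) * z x ^ 2) (Icc 0 L) := by fun_prop
        exact this
      · intro x hx
        have : 0 ≤ z x ^ 2 := sq_nonneg _
        show z x ^ 2 ≤ (1 + x) * z x ^ 2
        nlinarith [hx.1]
    -- sup bound
    set S := ε * P + Kε * Z with hS
    have hS0 : 0 ≤ S := by positivity
    have hsup : ∀ x ∈ Icc 0 L, z x ^ 2 ≤ S := by
      intro x hx
      have h5 := sup_sq_bound hL hC3 hε0 hx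
      have e : ∫ x in (0:ℝ)..L, (ε * p x ^ 2 + (1 / L + 1 / ε) * z x ^ 2) = S := by
        rw [intervalIntegral.integral_add (ip.const_mul _) (iz.const_mul _),
          intervalIntegral.integral_const_mul, intervalIntegral.integral_const_mul]
      rw [← e]; exact h5
    -- the two parts
    set f1 : ℝ → ℝ := fun x => -(2 * (1 + x) * z x * (r x + p x)) with hf1
    set f2 : ℝ → ℝ := fun x => -(2 * (1 + x) * z x * (z x * p x + ap A N t x * p x
      + z x * apx A A1 N t x + res A A1 A2 A3 N t x)) with hf2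
    have i1 : IntervalIntegrable f1 volume 0 L := by
      apply ContinuousOn.intervalIntegrable_of_Icc hL.le; fun_prop
    have i2 : IntervalIntegrable f2 volume 0 L := by
      apply ContinuousOn.intervalIntegrable_of_Icc hL.le; fun_prop
    have hY'eq : Y' t = (∫ x in (0:ℝ)..L, f1 x) + ∫ x in (0:ℝ)..L, f2 x := by
      rw [← intervalIntegral.integral_add i1 i2]
      apply intervalIntegral.integral_congr
      intro x hx
      rw [uIcc_of_le hL.le] at hx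
      have e1 := hu.pde t htT x hx
      have e3 : ut t x = -(dx L 1 (u t) x + dx L 3 (u t) x + u t x * dx L 1 (u t) x) := by
        simp only [hut]; linarith
      simp only [hf1, hf2, hz, hp, hr, res]
      rw [e3]; ring
    have hf1le : ∫ x in (0:ℝ)..L, f1 x ≤ -2 * P + CE * Z := by
      have e : ∫ x in (0:ℝ)..L, (-2 * p x ^ 2 + CE * z x ^ 2) = -2 * P + CE * Z := by
        rw [intervalIntegral.integral_add (ip.const_mul _) (iz.const_mul _),
          intervalIntegral.integral_const_mul, intervalIntegral.integral_const_mul]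
      rw [← e]; exact hen
    have hf2le : ∫ x in (0:ℝ)..L, f2 x ≤ P + (2 * ρ ^ 2 * S + c0 * N ^ 2) * Z + Cb ^ 2 * N ^ 2 * L := by
      have e : ∫ x in (0:ℝ)..L, (p x ^ 2 + (2 * ρ ^ 2 * S + c0 * N ^ 2) * z x ^ 2 + Cb ^ 2 * N ^ 2)
          = P + (2 * ρ ^ 2 * S + c0 * N ^ 2) * Z + Cb ^ 2 * N ^ 2 * L := by
        rw [intervalIntegral.integral_add (ip.add (iz.const_mul _)) intervalIntegrable_const,
          intervalIntegral.integral_add ip (iz.const_mul _), intervalIntegral.integral_const_mul,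
          intervalIntegral.integral_const]
        simp only [smul_eq_mul]; ring
      rw [← e]
      apply intervalIntegral.integral_mono_on hL.le i2
      · exact (ip.add (iz.const_mul _)).add intervalIntegrable_const
      intro x hx
      obtain ⟨b1, b2, b3⟩ := hCb N hN1 t x
      have hs := hsup x hx
      have hw0 : 0 ≤ 1 + x := by linarith [hx.1]
      have hw1 : 1 + x ≤ ρ := by rw [hρ]; linarith [hx.2]
      exact pointwise hw0 hw1 hCb0 hN1 hS0 hs b1 b2 b3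
    have hSZ : 2 * ρ ^ 2 * S * Z ≤ 1 / 2 * P + 2 * ρ ^ 2 * R * Kε * Z := by
      have hZR : Z ≤ R := hZY.trans hYR
      have e1 : 2 * ρ ^ 2 * ε * R = 1 / 2 := by
        rw [hε]; field_simp; norm_num
      calc 2 * ρ ^ 2 * S * Z = (2 * ρ ^ 2 * ε * Z) * P + (2 * ρ ^ 2 * Kε * Z) * Z := by
            rw [hS]; ring
        _ ≤ (2 * ρ ^ 2 * ε * R) * P + (2 * ρ ^ 2 * Kε * R) * Z := by gcongr
        _ = _ := by rw [e1]; ring
    have hfin : Y' t ≤ N ^ 2 * Z + c0 * N ^ 2 * Z + Cb ^ 2 * N ^ 2 * L := by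
      rw [hY'eq]
      have e1 : (CE + 2 * ρ ^ 2 * R * Kε) * Z ≤ N ^ 2 * Z := by gcongr
      nlinarith
    have hN2 : 0 < N ^ 2 := by positivity
    calc Y' t ≤ N ^ 2 * Z + c0 * N ^ 2 * Z + Cb ^ 2 * N ^ 2 * L := hfin
      _ = N ^ 2 * ((1 + c0) * Z + Cb ^ 2 * L) := by ring
      _ ≤ N ^ 2 * (C4 * (Y t + 1)) := by
        gcongr
        have e1 : (1 + c0) * Z ≤ (1 + c0) * Y t := by gcongr
        have e2 : 0 ≤ Cb ^ 2 * L * Y t := by
          have : 0 ≤ Y t := hZ0.trans hZY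
          positivity
        rw [hC4]; nlinarith
      _ = _ := by ring
  -- fencing
  have hY0 : Y 0 = 0 := by
    simp only [hY]
    rw [intervalIntegral.integral_congr (g := fun _ => (0:ℝ))]
    · simp
    · intro x hx
      rw [uIcc_of_le hL.le] at hx
      simp [hu.init x hx]
  have hBR : ∀ t, t ≤ τ → Real.exp (C5 * N ^ 2 * t) ≤ R := by
    intro t ht
    rw [hR]
    apply Real.exp_le_exp.2
    have h4 : t ≤ L / (12 * N ^ 2) := ht.trans hτN
    rw [le_div_iff₀ (by positivity)] at h4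
    have : C5 * N ^ 2 * t = C5 * (N ^ 2 * t) := by ring
    rw [this]
    gcongr
    linarith
  have hmain : ∀ t ∈ Icc 0 τ, Y t ≤ Real.exp (C5 * N ^ 2 * t) - 1 := by
    apply image_le_of_deriv_right_lt_deriv_boundary hYc hYd
      (B := fun t => Real.exp (C5 * N ^ 2 * t) - 1)
      (B' := fun t => C5 * N ^ 2 * Real.exp (C5 * N ^ 2 * t))
    · rw [hY0]; simp
    · intro t
      have h1 : HasDerivAt (fun t => C5 * N ^ 2 * t) (C5 * N ^ 2) t := by
        simpa using (hasDerivAt_id t).const_mul (C5 * N ^ 2)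
      exact (h1.exp.sub_const 1).congr_deriv (by ring)
    · intro t ht hYB
      have hle : Y t ≤ R := by
        rw [hYB]
        have := hBR t ht.2.le
        linarith
      have h1 := hstep t ht hle
      have h2 : Y t + 1 = Real.exp (C5 * N ^ 2 * t) := by rw [hYB]; ring
      rw [h2] at h1
      have h3 : 0 < N ^ 2 * Real.exp (C5 * N ^ 2 * t) := by positivity
      calc Y' t ≤ C4 * N ^ 2 * Real.exp (C5 * N ^ 2 * t) := h1
        _ < C5 * N ^ 2 * Real.exp (C5 * N ^ 2 * t) := by rw [hC5]; nlinarith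
  have hfinal := hmain τ ⟨hpos.le, le_rfl⟩
  have hBτ := hBR τ le_rfl
  have czτ : ContinuousOn (fun x => u τ x - ap A N τ x) (Icc 0 L) :=
    ((c3_of_contDiffOn hL (hu.diff_x τ hτ)).sub (ap_C3 h N τ)).cz
  calc ∫ x in (0:ℝ)..L, (u τ x - ap A N τ x) ^ 2 ≤ Y τ := by
        apply intervalIntegral.integral_mono_on hL.le
        · apply ContinuousOn.intervalIntegrable_of_Icc hL.le; fun_prop
        · apply ContinuousOn.intervalIntegrable_of_Icc hL.le; fun_prop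
        · intro x hx
          have : 0 ≤ (u τ x - ap A N τ x) ^ 2 := sq_nonneg _
          nlinarith [hx.1]
    _ ≤ R := by linarith



/-- Bessel potential as a linear map from Schwartz functions to `L²` -/
noncomputable def besL (s : ℝ) : 𝓢(ℝ, ℂ) →L[ℝ] Lp ℂ 2 (volume : Measure ℝ) :=
  (SchwartzMap.toLpCLM ℝ ℂ 2 volume) ∘L
    (SchwartzMap.fourierMultiplierCLM ℂ (fun x : ℝ => ((1 + ‖x‖ ^ 2) ^ (s / 2) : ℝ)))

lemma besL_apply (s : ℝ) (f : 𝓢(ℝ, ℂ)) :
    besL s f = (SchwartzMap.fourierMultiplierCLM ℂ (fun x : ℝ => ((1 + ‖x‖ ^ 2) ^ (s / 2) : ℝ)) f).toLp 2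
      volume := by
  unfold besL
  rw [ContinuousLinearMap.comp_apply, SchwartzMap.toLpCLM_apply]

lemma besL_sq (s : ℝ) (f : 𝓢(ℝ, ℂ)) : ‖besL s f‖ₑ ^ 2 = hsq s f := by
  rw [besL_apply]; exact hsq_eq s f

lemma sobNorm_le' (s ℓ : ℝ) (f : ℝ → ℝ) (F : 𝓢(ℝ, ℂ)) (hF : ∀ x ∈ Ioo 0 ℓ, F x = (f x : ℂ))
    (hℓ : 0 ≤ ℓ) : sobNorm s ℓ f ≤ ENNReal.ofReal ‖besL s F‖ := by
  refine (sobNorm_le s ℓ f F hF hℓ).trans (le_of_eq ?_)
  rw [← besL_sq, sq_rpow_half, ofReal_norm]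

lemma besL_modul {s : ℝ} (hs : s ≤ 0) {A F : 𝓢(ℝ, ℂ)} {a : ℝ}
    (hF : ∀ x, F x = Complex.exp (2 * Real.pi * a * x * Complex.I) * A x) :
    ‖besL s F‖ ≤ 2 ^ (-s / 2) * (1 + a ^ 2) ^ (s / 2) * ‖besL (-s) A‖ := by
  have h := hsq_modul hs hF
  rw [← besL_sq, ← besL_sq, ← ofReal_norm, ← ofReal_norm, ← ENNReal.ofReal_pow (norm_nonneg _),
    ← ENNReal.ofReal_pow (norm_nonneg _), ← ENNReal.ofReal_mul (by positivity),
    ENNReal.ofReal_le_ofReal_iff (by positivity)] at h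
  apply le_of_sq_le_sq _ (by positivity)
  refine h.trans (le_of_eq ?_)
  have e1 : ((2:ℝ) ^ (-s / 2)) ^ 2 = 2 ^ (-s) := by
    rw [← Real.rpow_natCast, ← Real.rpow_mul (by norm_num)]
    congr 1; push_cast; ring
  have e2 : ((1 + a ^ 2 : ℝ) ^ (s / 2)) ^ 2 = (1 + a ^ 2) ^ s := by
    rw [← Real.rpow_natCast, ← Real.rpow_mul (by positivity)]
    congr 1; push_cast; ring
  rw [mul_pow, mul_pow, e1, e2]

lemma data_small {s L : ℝ} (hs : s < -1) (hL : 0 < L) {A : ℝ → ℝ}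
    (hA : ContDiff ℝ ((⊤ : ℕ∞) : WithTop ℕ∞) A) (hc : HasCompactSupport A) :
    Tendsto (fun n : ℕ => sobNorm s L (fun x => ap A (2 * Real.pi * (n + 1)) 0 x)) atTop (𝓝 0) := by
  have hA2 : ContDiff ℝ ((⊤ : ℕ∞) : WithTop ℕ∞) (fun x => A x ^ 2) := hA.pow 2
  have hc2 : HasCompactSupport (fun x => A x ^ 2) := hc.comp_left (g := fun y : ℝ => y ^ 2) (by simp)
  obtain ⟨S1, hS1⟩ := exists_modul A hA hc 0
  obtain ⟨S2, hS2⟩ := exists_modul (fun x => A x ^ 2) hA2 hc2 0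
  have hS1' : ∀ x, S1 x = (A x : ℂ) := by intro x; rw [hS1]; simp
  have hS2' : ∀ x, S2 x = ((A x ^ 2 : ℝ) : ℂ) := by intro x; rw [hS2]; simp
  have key : ∀ a : ℝ, 1 ≤ a → sobNorm s L (fun x => ap A (2 * Real.pi * a) 0 x) ≤
      ENNReal.ofReal (2 ^ (-s / 2) * a ^ (1 + s) * (2 * Real.pi * ‖besL (-s) S1‖
        + ‖besL (-s) S2‖)) := by
    intro a ha
    have ha0 : 0 < a := by linarith
    obtain ⟨F1, hF1⟩ := exists_modul A hA hc a
    obtain ⟨F2, hF2⟩ := exists_modul A hA hc (-a)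
    obtain ⟨F3, hF3⟩ := exists_modul (fun x => A x ^ 2) hA2 hc2 (2 * a)
    obtain ⟨F4, hF4⟩ := exists_modul (fun x => A x ^ 2) hA2 hc2 (-(2 * a))
    have n1 := besL_modul (s := s) (by linarith) (A := S1) (F := F1) (a := a)
      (fun x => by rw [hF1, hS1'])
    have n2 := besL_modul (s := s) (by linarith) (A := S1) (F := F2) (a := -a)
      (fun x => by rw [hF2, hS1'])
    have n3 := besL_modul (s := s) (by linarith) (A := S2) (F := F3) (a := 2 * a)
      (fun x => by rw [hF3, hS2'])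
    have n4 := besL_modul (s := s) (by linarith) (A := S2) (F := F4) (a := -(2 * a))
      (fun x => by rw [hF4, hS2'])
    have hp : (1 + a ^ 2 : ℝ) ^ (s / 2) ≤ a ^ s := by
      have e : a ^ s = (a ^ 2) ^ (s / 2) := by
        rw [← Real.rpow_natCast, ← Real.rpow_mul ha0.le]; congr 1; push_cast; ring
      rw [e]
      exact Real.rpow_le_rpow_of_nonpos (by positivity) (by linarith) (by linarith)
    have hp2 : (1 + (2 * a) ^ 2 : ℝ) ^ (s / 2) ≤ a ^ s := by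
      refine le_trans ?_ hp
      exact Real.rpow_le_rpow_of_nonpos (by positivity) (by nlinarith) (by linarith)
    have n1' : ‖besL s F1‖ ≤ 2 ^ (-s / 2) * a ^ s * ‖besL (-s) S1‖ := n1.trans (by gcongr)
    have n2' : ‖besL s F2‖ ≤ 2 ^ (-s / 2) * a ^ s * ‖besL (-s) S1‖ := by
      refine n2.trans ?_
      rw [neg_sq]; gcongr
    have n3' : ‖besL s F3‖ ≤ 2 ^ (-s / 2) * a ^ s * ‖besL (-s) S2‖ := n3.trans (by gcongr)
    have n4' : ‖besL s F4‖ ≤ 2 ^ (-s / 2) * a ^ s * ‖besL (-s) S2‖ := by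
      refine n4.trans ?_
      rw [neg_sq]; gcongr
    set F : 𝓢(ℝ, ℂ) := (Real.pi * a : ℝ) • (F1 + F2) + (1 / 24 : ℝ) • (F3 + F4) with hF
    have hFx : ∀ x ∈ Ioo 0 L, F x = ((ap A (2 * Real.pi * a) 0 x : ℝ) : ℂ) := by
      intro x _
      rw [hF]
      simp only [add_apply, smul_apply, hF1, hF2, hF3, hF4, Complex.real_smul]
      unfold ap
      simp only [mul_zero, add_zero, smul_eq_mul]
      push_cast
      rw [Complex.cos, Complex.cos]
      have e1 : (2 * (Real.pi : ℂ) * (a : ℂ) * (x : ℂ) * Complex.I)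
        = 2 * Real.pi * a * x * Complex.I := rfl
      have e2 : -(2 * (Real.pi : ℂ) * (a : ℂ) * (x : ℂ)) * Complex.I
        = 2 * Real.pi * -a * x * Complex.I := by ring
      have e3 : (2 * (2 * (Real.pi : ℂ) * (a : ℂ) * (x : ℂ))) * Complex.I
        = 2 * Real.pi * (2 * a) * x * Complex.I := by ring
      have e4 : -(2 * (2 * (Real.pi : ℂ) * (a : ℂ) * (x : ℂ))) * Complex.I
        = 2 * Real.pi * -(2 * a) * x * Complex.I := by ring
      rw [e2, e3, e4]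
      ring
    refine (sobNorm_le' s L _ F hFx hL.le).trans (ENNReal.ofReal_le_ofReal ?_)
    have hlin : ‖besL s F‖ ≤ Real.pi * a * (‖besL s F1‖ + ‖besL s F2‖)
        + 1 / 24 * (‖besL s F3‖ + ‖besL s F4‖) := by
      rw [hF, map_add, map_smul, map_smul, map_add, map_add]
      refine (norm_add_le _ _).trans ?_
      rw [norm_smul, norm_smul]
      have e1 : ‖(Real.pi * a : ℝ)‖ = Real.pi * a := by
        rw [Real.norm_of_nonneg (by positivity)]
      have e2 : ‖(1 / 24 : ℝ)‖ = 1 / 24 := by norm_num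
      rw [e1, e2]
      gcongr
      · exact norm_add_le _ _
      · exact norm_add_le _ _
    have e5 : a ^ (1 + s) = a * a ^ s := by
      rw [Real.rpow_add ha0, Real.rpow_one]
    have hb1 : 0 ≤ ‖besL (-s) S1‖ := norm_nonneg _
    have hb2 : 0 ≤ ‖besL (-s) S2‖ := norm_nonneg _
    calc ‖besL s F‖ ≤ Real.pi * a * (‖besL s F1‖ + ‖besL s F2‖)
        + 1 / 24 * (‖besL s F3‖ + ‖besL s F4‖) := hlin
      _ ≤ Real.pi * a * (2 ^ (-s / 2) * a ^ s * ‖besL (-s) S1‖ + 2 ^ (-s / 2) * a ^ s * ‖besL (-s) S1‖)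
        + 1 / 24 * (2 ^ (-s / 2) * a ^ s * ‖besL (-s) S2‖ + 2 ^ (-s / 2) * a ^ s * ‖besL (-s) S2‖) := by
        gcongr
      _ = 2 ^ (-s / 2) * (a * a ^ s) * (2 * Real.pi * ‖besL (-s) S1‖)
          + 2 ^ (-s / 2) * a ^ s * (1 / 12 * ‖besL (-s) S2‖) := by ring
      _ ≤ 2 ^ (-s / 2) * (a * a ^ s) * (2 * Real.pi * ‖besL (-s) S1‖)
          + 2 ^ (-s / 2) * (a * a ^ s) * (1 * ‖besL (-s) S2‖) := by
        have h1 : a ^ s ≤ a * a ^ s := by
          have : 0 < a ^ s := Real.rpow_pos_of_pos ha0 _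
          nlinarith
        gcongr
        norm_num
      _ = _ := by rw [e5]; ring
  have hlim : Tendsto (fun n : ℕ => ENNReal.ofReal (2 ^ (-s / 2) * ((n:ℝ) + 1) ^ (1 + s)
      * (2 * Real.pi * ‖besL (-s) S1‖ + ‖besL (-s) S2‖))) atTop (𝓝 0) := by
    have h1 : Tendsto (fun n : ℕ => ((n:ℝ) + 1) ^ (1 + s)) atTop (𝓝 0) := by
      have h2 : Tendsto (fun x : ℝ => x ^ (-(-(1 + s)))) atTop (𝓝 0) :=
        tendsto_rpow_neg_atTop (by linarith)
      have h3 : Tendsto (fun n : ℕ => (n:ℝ) + 1) atTop atTop :=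
        tendsto_atTop_add_const_right _ _ tendsto_natCast_atTop_atTop
      have := h2.comp h3
      rw [neg_neg] at this
      exact this
    have h4 := (h1.const_mul (2 ^ (-s / 2))).mul_const (2 * Real.pi * ‖besL (-s) S1‖ + ‖besL (-s) S2‖)
    rw [mul_zero, zero_mul] at h4
    have h5 := ENNReal.tendsto_ofReal h4
    simpa using h5
  refine tendsto_of_tendsto_of_tendsto_of_le_of_le tendsto_const_nhds hlim (fun _ => zero_le)
    (fun n => ?_)
  have := key ((n:ℝ) + 1) (by linarith [Nat.cast_nonneg (α := ℝ) n])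
  exact this



/-- the derivative of the pairing with the profile -/
lemma pair_ibp {L : ℝ} (hL : 0 < L) {A A1 A2 A3 : ℝ → ℝ} {M : ℝ} (h : Profile L A A1 A2 A3 M)
    {u p q r : ℝ → ℝ} (hu : C3 L u p q r) :
    ∫ x in (0:ℝ)..L, A x * (-(p x + r x + u x * p x))
      = ∫ x in (0:ℝ)..L, ((A1 x + A3 x) * u x + 1 / 2 * A1 x * u x ^ 2) := by
  have cu := hu.cz
  have cp := hu.cp
  have cq := hu.cq
  have cr := hu.hr
  have cA := h.cA
  have cA1 := h.cA1
  have cA2 := h.cA2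
  have cA3 := h.c3
  have i1 : IntervalIntegrable (fun x => A x * (-(p x + r x + u x * p x))) volume 0 L := by
    apply ContinuousOn.intervalIntegrable_of_Icc hL.le; fun_prop
  have i2 : IntervalIntegrable (fun x => (A1 x + A3 x) * u x + 1 / 2 * A1 x * u x ^ 2) volume 0 L := by
    apply ContinuousOn.intervalIntegrable_of_Icc hL.le; fun_prop
  have z0 : (0:ℝ) ≤ 3 * L / 8 := by positivity
  have zL : 5 * L / 8 ≤ L := by linarith
  have key := ftc hL.le (G := fun x => A x * (u x + q x + 1 / 2 * u x ^ 2) - A1 x * p x + A2 x * u x)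
    (g := fun x => ((A1 x + A3 x) * u x + 1 / 2 * A1 x * u x ^ 2)
      - A x * (-(p x + r x + u x * p x))) ?_ ?_
  · rw [intervalIntegral.integral_sub i2 i1, h.s0 _ (Or.inl z0), h.s1 _ (Or.inl z0),
      h.s2 _ (Or.inl z0), h.s0 _ (Or.inr zL), h.s1 _ (Or.inr zL), h.s2 _ (Or.inr zL)] at key
    linarith
  · intro x hx
    have d1 := (h.h1 x).hasDerivWithinAt (s := Icc 0 L)
    have d2 := (h.h2 x).hasDerivWithinAt (s := Icc 0 L)
    have d3 := (h.h3 x).hasDerivWithinAt (s := Icc 0 L)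
    have e1 := ((hu.h1 x hx).add (hu.h3 x hx)).add (((hu.h1 x hx).pow 2).const_mul (1 / 2))
    have e2 := ((d1.mul e1).sub (d2.mul (hu.h2 x hx))).add (d3.mul (hu.h1 x hx))
    refine (e2.congr_deriv ?_).congr (fun y hy => ?_) ?_
    · simp; ring
    · simp [Pi.mul_apply, Pi.sub_apply, Pi.add_apply]
    · simp [Pi.mul_apply, Pi.sub_apply, Pi.add_apply]
  · fun_prop

/-- the pointwise bound of the non-oscillating part -/
lemma osc_bound {M Cb N A0y A1y A1x A2x A3x a z cs c2 s2 : ℝ} (hM : 0 ≤ M) (hCb : 0 ≤ Cb) (hN : 1 ≤ N)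
    (b0 : |A0y| ≤ M) (b1 : |A1y| ≤ M) (b1x : |A1x| ≤ M) (b2x : |A2x| ≤ M) (b3x : |A3x| ≤ M)
    (hcs : |cs| ≤ 1) (hs2 : |s2| ≤ 1) (hc2 : |c2| ≤ 1) (ha : |a| ≤ Cb * N) :
    |(A1x + A3x) * (a + z) + A1x * a * z + 1 / 2 * A1x * z ^ 2
      + A1x * (N / 12 * A0y ^ 3 * cs * c2 + 1 / 288 * A0y ^ 4 * c2 ^ 2)
      - N / 8 * (A2x * A0y ^ 2 + 2 * A1x * A0y * A1y) * s2|
      ≤ (4 * M * Cb + 4 * M + M ^ 4 + M ^ 5 + M ^ 3) * N * (1 + z ^ 2) := by
  have hN0 : 0 < N := by linarith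
  have hz : |z| ≤ (1 + z ^ 2) / 2 := by
    rw [abs_le]
    constructor <;> nlinarith [sq_nonneg (z - 1), sq_nonneg (z + 1)]
  have hz1 : 1 ≤ 1 + z ^ 2 := by nlinarith [sq_nonneg z]
  have hz2 : z ^ 2 ≤ 1 + z ^ 2 := by linarith
  have t1 : |(A1x + A3x) * (a + z)| ≤ (2 * M * Cb + 2 * M) * N * (1 + z ^ 2) := by
    rw [abs_mul]
    have e1 : |A1x + A3x| ≤ 2 * M := (abs_add_le _ _).trans (by linarith)
    have e2 : |a + z| ≤ Cb * N + (1 + z ^ 2) / 2 := (abs_add_le _ _).trans (by linarith)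
    calc |A1x + A3x| * |a + z| ≤ (2 * M) * (Cb * N + (1 + z ^ 2) / 2) := by gcongr
      _ = 2 * M * Cb * N * 1 + M * 1 * (1 + z ^ 2) := by ring
      _ ≤ 2 * M * Cb * N * (1 + z ^ 2) + 2 * M * N * (1 + z ^ 2) := by
        gcongr
        · linarith
      _ = _ := by ring
  have t2 : |A1x * a * z| ≤ M * Cb * N * (1 + z ^ 2) := by
    rw [abs_mul, abs_mul]
    calc |A1x| * |a| * |z| ≤ M * (Cb * N) * ((1 + z ^ 2) / 2) := by gcongr
      _ ≤ M * (Cb * N) * (1 + z ^ 2) := by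
        gcongr; linarith
      _ = _ := by ring
  have t3 : |1 / 2 * A1x * z ^ 2| ≤ M * N * (1 + z ^ 2) := by
    rw [abs_mul, abs_mul, abs_of_nonneg (sq_nonneg z)]
    have e1 : |(1:ℝ) / 2| = 1 / 2 := by norm_num
    rw [e1]
    calc 1 / 2 * |A1x| * z ^ 2 ≤ 1 * M * (1 + z ^ 2) := by gcongr; norm_num
      _ = M * 1 * (1 + z ^ 2) := by ring
      _ ≤ _ := by gcongr
  have t4 : |A1x * (N / 12 * A0y ^ 3 * cs * c2 + 1 / 288 * A0y ^ 4 * c2 ^ 2)|
      ≤ (M ^ 4 + M ^ 5) * N * (1 + z ^ 2) := by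
    rw [abs_mul]
    have e1 : |N / 12 * A0y ^ 3 * cs * c2| ≤ N * M ^ 3 := by
      rw [abs_mul, abs_mul, abs_mul, abs_pow, abs_of_pos (by positivity : 0 < N / 12)]
      calc N / 12 * |A0y| ^ 3 * |cs| * |c2| ≤ N * M ^ 3 * 1 * 1 := by
            gcongr; linarith
        _ = _ := by ring
    have e2 : |1 / 288 * A0y ^ 4 * c2 ^ 2| ≤ M ^ 4 := by
      rw [abs_mul, abs_mul, abs_pow, abs_pow]
      have e0 : |(1:ℝ) / 288| = 1 / 288 := by norm_num
      rw [e0]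
      calc 1 / 288 * |A0y| ^ 4 * |c2| ^ 2 ≤ 1 * M ^ 4 * 1 ^ 2 := by
            gcongr; norm_num
        _ = _ := by ring
    have e3 : |N / 12 * A0y ^ 3 * cs * c2 + 1 / 288 * A0y ^ 4 * c2 ^ 2| ≤ N * M ^ 3 + M ^ 4 :=
      (abs_add_le _ _).trans (by linarith)
    calc |A1x| * |N / 12 * A0y ^ 3 * cs * c2 + 1 / 288 * A0y ^ 4 * c2 ^ 2|
        ≤ M * (N * M ^ 3 + M ^ 4) := by gcongr
      _ = M ^ 4 * N * 1 + M ^ 5 * 1 * 1 := by ring
      _ ≤ M ^ 4 * N * (1 + z ^ 2) + M ^ 5 * N * (1 + z ^ 2) := by gcongr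
      _ = _ := by ring
  have t5 : |N / 8 * (A2x * A0y ^ 2 + 2 * A1x * A0y * A1y) * s2| ≤ M ^ 3 * N * (1 + z ^ 2) := by
    rw [abs_mul, abs_mul, abs_of_pos (by positivity : 0 < N / 8)]
    have e1 : |A2x * A0y ^ 2 + 2 * A1x * A0y * A1y| ≤ 3 * M ^ 3 := by
      refine (abs_add_le _ _).trans ?_
      have f1 : |A2x * A0y ^ 2| ≤ M ^ 3 := by
        rw [abs_mul, abs_pow]
        calc |A2x| * |A0y| ^ 2 ≤ M * M ^ 2 := by gcongr
          _ = _ := by ring
      have f2 : |2 * A1x * A0y * A1y| ≤ 2 * M ^ 3 := by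
        rw [abs_mul, abs_mul, abs_mul]
        have e0 : |(2:ℝ)| = 2 := by norm_num
        rw [e0]
        calc 2 * |A1x| * |A0y| * |A1y| ≤ 2 * M * M * M := by gcongr
          _ = _ := by ring
      linarith
    calc N / 8 * |A2x * A0y ^ 2 + 2 * A1x * A0y * A1y| * |s2| ≤ N / 8 * (3 * M ^ 3) * 1 := by gcongr
      _ ≤ N * M ^ 3 * 1 := by
        have : 0 ≤ N * M ^ 3 := by positivity
        nlinarith
      _ ≤ N * M ^ 3 * (1 + z ^ 2) := by gcongr
      _ = _ := by ring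
  have tri : |(A1x + A3x) * (a + z) + A1x * a * z + 1 / 2 * A1x * z ^ 2
      + A1x * (N / 12 * A0y ^ 3 * cs * c2 + 1 / 288 * A0y ^ 4 * c2 ^ 2)
      - N / 8 * (A2x * A0y ^ 2 + 2 * A1x * A0y * A1y) * s2|
      ≤ |(A1x + A3x) * (a + z)| + |A1x * a * z| + |1 / 2 * A1x * z ^ 2|
      + |A1x * (N / 12 * A0y ^ 3 * cs * c2 + 1 / 288 * A0y ^ 4 * c2 ^ 2)|
      + |N / 8 * (A2x * A0y ^ 2 + 2 * A1x * A0y * A1y) * s2| := by
    refine (abs_sub _ _).trans ?_
    gcongr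
    refine (abs_add_le _ _).trans ?_
    gcongr
    refine (abs_add_le _ _).trans ?_
    gcongr
    exact abs_add_le _ _
  refine tri.trans ?_
  have hfin : (4 * M * Cb + 4 * M + M ^ 4 + M ^ 5 + M ^ 3) * N * (1 + z ^ 2)
      = (2 * M * Cb + 2 * M) * N * (1 + z ^ 2) + M * Cb * N * (1 + z ^ 2) + M * N * (1 + z ^ 2)
        + (M ^ 4 + M ^ 5) * N * (1 + z ^ 2) + M ^ 3 * N * (1 + z ^ 2)
        + (M * Cb + M) * N * (1 + z ^ 2) := by ring
  have : 0 ≤ (M * Cb + M) * N * (1 + z ^ 2) := by positivity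
  linarith

/-- static estimate of the resonant integral -/
lemma static_bound {L : ℝ} (hL : 0 < L) {A A1 A2 A3 : ℝ → ℝ} {M : ℝ} (h : Profile L A A1 A2 A3 M)
    {Cb : ℝ} (hCb : 0 ≤ Cb) {N t : ℝ} (hN : 1 ≤ N) (hb : ∀ x, |ap A N t x| ≤ Cb * N)
    {u : ℝ → ℝ} (hu : ContinuousOn u (Icc 0 L)) {R : ℝ}
    (hR : ∫ x in (0:ℝ)..L, (u x - ap A N t x) ^ 2 ≤ R) :
    |(∫ x in (0:ℝ)..L, ((A1 x + A3 x) * u x + 1 / 2 * A1 x * u x ^ 2))
      - ∫ x in (0:ℝ)..L, 1 / 4 * N ^ 2 * A1 x * A (x + 3 * N ^ 2 * t) ^ 2|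
      ≤ (4 * M * Cb + 4 * M + M ^ 4 + M ^ 5 + M ^ 3) * (L + R) * N := by
  have hM : 0 ≤ M := (abs_nonneg _).trans (h.b0 0)
  have cA := h.cA
  have cA1 := h.cA1
  have cA2 := h.cA2
  have cA3 := h.c3
  have cap : Continuous (fun x => ap A N t x) := (cont_ap h N).1.comp (by fun_prop : Continuous fun x : ℝ => (t, x))
  set K := 4 * M * Cb + 4 * M + M ^ 4 + M ^ 5 + M ^ 3 with hK
  set z : ℝ → ℝ := fun x => u x - ap A N t x with hz
  have cz : ContinuousOn z (Icc 0 L) := by fun_prop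
  -- total derivative
  set G : ℝ → ℝ := fun x => N / 8 * (A1 x * A (x + 3 * N ^ 2 * t) ^ 2)
    * Real.sin (2 * (N * x + N ^ 3 * t)) with hG
  set G' : ℝ → ℝ := fun x => N / 8 * (A2 x * A (x + 3 * N ^ 2 * t) ^ 2
      + 2 * A1 x * A (x + 3 * N ^ 2 * t) * A1 (x + 3 * N ^ 2 * t)) * Real.sin (2 * (N * x + N ^ 3 * t))
    + N ^ 2 / 4 * (A1 x * A (x + 3 * N ^ 2 * t) ^ 2) * Real.cos (2 * (N * x + N ^ 3 * t)) with hG'
  have z0 : (0:ℝ) ≤ 3 * L / 8 := by positivity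
  have zL : 5 * L / 8 ≤ L := by linarith
  have hGint : ∫ x in (0:ℝ)..L, G' x = 0 := by
    rw [ftc hL.le (G := G) (g := G')]
    · simp only [hG]
      rw [h.s1 _ (Or.inl z0), h.s1 _ (Or.inr zL)]; simp
    · intro x _
      have d1 := h.h2 x
      have d2 := comp_x h.h1 N t x
      have d3 := sin2_x N t x
      have d4 := ((d1.mul (d2.pow 2)).const_mul (N / 8)).mul d3
      refine HasDerivAt.hasDerivWithinAt (d4.congr_deriv ?_)
      simp only [hG', Pi.mul_apply, Pi.pow_apply]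
      simp
      ring
    · fun_prop
  set f : ℝ → ℝ := fun x => (A1 x + A3 x) * (ap A N t x + z x) + A1 x * ap A N t x * z x
      + 1 / 2 * A1 x * z x ^ 2
      + A1 x * (N / 12 * A (x + 3 * N ^ 2 * t) ^ 3 * Real.cos (N * x + N ^ 3 * t)
          * Real.cos (2 * (N * x + N ^ 3 * t))
        + 1 / 288 * A (x + 3 * N ^ 2 * t) ^ 4 * Real.cos (2 * (N * x + N ^ 3 * t)) ^ 2)
      - N / 8 * (A2 x * A (x + 3 * N ^ 2 * t) ^ 2
      + 2 * A1 x * A (x + 3 * N ^ 2 * t) * A1 (x + 3 * N ^ 2 * t))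
        * Real.sin (2 * (N * x + N ^ 3 * t)) with hf
  have ifc : IntervalIntegrable f volume 0 L := by
    apply ContinuousOn.intervalIntegrable_of_Icc hL.le; fun_prop
  have iG' : IntervalIntegrable G' volume 0 L := by
    apply ContinuousOn.intervalIntegrable_of_Icc hL.le; fun_prop
  have i1 : IntervalIntegrable (fun x => (A1 x + A3 x) * u x + 1 / 2 * A1 x * u x ^ 2) volume 0 L := by
    apply ContinuousOn.intervalIntegrable_of_Icc hL.le; fun_prop
  have i2 : IntervalIntegrable (fun x => 1 / 4 * N ^ 2 * A1 x * A (x + 3 * N ^ 2 * t) ^ 2) volume 0 L := by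
    apply ContinuousOn.intervalIntegrable_of_Icc hL.le; fun_prop
  have izz : IntervalIntegrable (fun x => z x ^ 2) volume 0 L := by
    apply ContinuousOn.intervalIntegrable_of_Icc hL.le; fun_prop
  have heq : (∫ x in (0:ℝ)..L, ((A1 x + A3 x) * u x + 1 / 2 * A1 x * u x ^ 2))
      - ∫ x in (0:ℝ)..L, 1 / 4 * N ^ 2 * A1 x * A (x + 3 * N ^ 2 * t) ^ 2
      = ∫ x in (0:ℝ)..L, f x := by
    rw [← intervalIntegral.integral_sub i1 i2]
    have e : ∫ x in (0:ℝ)..L, f x = ∫ x in (0:ℝ)..L, (f x + G' x) := by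
      rw [intervalIntegral.integral_add ifc iG', hGint, add_zero]
    rw [e]
    apply intervalIntegral.integral_congr
    intro x _
    simp only [hf, hG', hz, ap]
    have hc : Real.cos (N * x + N ^ 3 * t) ^ 2 = 1 / 2 + 1 / 2 * Real.cos (2 * (N * x + N ^ 3 * t)) := by
      rw [Real.cos_two_mul]; ring
    set cs := Real.cos (N * x + N ^ 3 * t)
    set c2 := Real.cos (2 * (N * x + N ^ 3 * t))
    set s2 := Real.sin (2 * (N * x + N ^ 3 * t))
    set a0 := A (x + 3 * N ^ 2 * t)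
    set a1 := A1 (x + 3 * N ^ 2 * t)
    have : c2 = 2 * cs ^ 2 - 1 := by linarith
    rw [this]
    ring
  rw [heq]
  calc |∫ x in (0:ℝ)..L, f x| ≤ ∫ x in (0:ℝ)..L, K * N * (1 + z x ^ 2) := by
        apply intervalIntegral.abs_integral_le_integral_abs hL.le |>.trans
        apply intervalIntegral.integral_mono_on hL.le ifc.abs
        · apply ContinuousOn.intervalIntegrable_of_Icc hL.le; fun_prop
        · intro x hx
          exact osc_bound hM hCb hN (h.b0 _) (h.b1 _) (h.b1 _) (h.b2 _) (h.b3 _)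
            (Real.abs_cos_le_one _) (Real.abs_sin_le_one _) (Real.abs_cos_le_one _) (hb x)
    _ = K * N * (L + ∫ x in (0:ℝ)..L, z x ^ 2) := by
        rw [intervalIntegral.integral_const_mul, intervalIntegral.integral_add
          intervalIntegrable_const izz]
        simp
    _ ≤ K * N * (L + R) := by
        have : 0 ≤ K := by positivity
        gcongr
    _ = _ := by ring

/-- transfer of mass to low frequencies -/
lemma m_bound (k : ℕ) (c : Coeffs) {L : ℝ} (hL : 0 < L) {A A1 A2 A3 : ℝ → ℝ} {M : ℝ}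
    (h : Profile L A A1 A2 A3 M) :
    ∃ C N₀, 0 ≤ C ∧ 1 ≤ N₀ ∧ ∀ N, N₀ ≤ N → ∀ T u,
      IsSolution k c L T (fun x => ap A N 0 x) (fun _ _ => 0) u → L / (12 * N ^ 2) < T →
      |(∫ x in (0:ℝ)..L, A x * u (L / (12 * N ^ 2)) x) - (∫ x in (0:ℝ)..L, A x * ap A N 0 x)
        - 1 / 12 * ∫ x in (0:ℝ)..L, A x ^ 3| ≤ C / N := by
  obtain ⟨R, N₀, hR1, hN₀, hz⟩ := z_bound k c hL h
  obtain ⟨Cb, hCb0, hCb⟩ := bounds h
  have hM : 0 ≤ M := (abs_nonneg _).trans (h.b0 0)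
  set K := (4 * M * Cb + 4 * M + M ^ 4 + M ^ 5 + M ^ 3) * (L + R) with hK
  have hK0 : 0 ≤ K := by
    have : 0 ≤ L + R := by linarith
    positivity
  refine ⟨K * L / 12, N₀, by positivity, hN₀, ?_⟩
  intro N hN T u hu hT
  have hN1 : 1 ≤ N := hN₀.trans hN
  have hN0 : 0 < N := by linarith
  set τ := L / (12 * N ^ 2) with hτ
  have hτ0 : 0 < τ := by positivity
  have hsubC : Icc 0 τ ⊆ Ico 0 T := fun y hy => ⟨hy.1, hy.2.trans_lt hT⟩
  have cA := h.cA
  have cA1 := h.cA1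
  have cA2 := h.cA2
  have cA3 := h.c3
  have cu0 : ContinuousOn (fun z : ℝ × ℝ => u z.1 z.2) (Icc 0 τ ×ˢ Icc 0 L) := by
    have := (hu.cont_x 0 (by norm_num)).mono (prod_mono hsubC (subset_refl (Icc (0:ℝ) L)))
    simpa [dx] using this
  have cut := hu.cont_t.mono (prod_mono hsubC (subset_refl (Icc (0:ℝ) L)))
  set ut : ℝ → ℝ → ℝ := fun t x => derivWithin (fun τ => u τ x) (Ico 0 T) t with hut
  set F : ℝ → ℝ → ℝ := fun t x => A x * u t x + 1 / 12 * (A x * A (x + 3 * N ^ 2 * t) ^ 2) with hF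
  set F' : ℝ → ℝ → ℝ := fun t x => A x * ut t x
    + 1 / 2 * N ^ 2 * (A x * A (x + 3 * N ^ 2 * t) * A1 (x + 3 * N ^ 2 * t)) with hF'
  have hFc : ContinuousOn (fun z : ℝ × ℝ => F z.1 z.2) (Icc 0 τ ×ˢ Icc 0 L) := by
    simp only [hF]; fun_prop
  have hF'c : ContinuousOn (fun z : ℝ × ℝ => F' z.1 z.2) (Icc 0 τ ×ˢ Icc 0 L) := by
    simp only [hF']
    have : ContinuousOn (fun z : ℝ × ℝ => ut z.1 z.2) (Icc 0 τ ×ˢ Icc 0 L) := cut
    fun_prop
  set Y : ℝ → ℝ := fun t => ∫ x in (0:ℝ)..L, F t x with hY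
  have hYc : ContinuousOn Y (Icc 0 τ) := continuousOn_param hτ0.le hL.le hFc
  have hYd : ∀ t ∈ Ico 0 τ, HasDerivWithinAt Y (∫ x in (0:ℝ)..L, F' t x) (Ici t) t := by
    apply hasDerivWithinAt_param hτ0 hL.le hFc hF'c
    intro s hs x hx
    have hsT : s ∈ Ico 0 T := hsubC (Ioo_subset_Icc_self hs)
    have hn : Ico 0 T ∈ 𝓝 s := Ico_mem_nhds hs.1 hsT.2
    have d1 := ((hu.diff_t x hx) s hsT).hasDerivWithinAt.hasDerivAt hn
    have d2 := comp_t h.h1 N s x
    have d3 := (d1.const_mul (A x)).add (((d2.pow 2).const_mul (A x)).const_mul (1 / 12))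
    refine d3.congr_deriv ?_
    simp only [hF', hut]
    simp
    ring
  have hbd : ∀ t ∈ Ico 0 τ, ‖∫ x in (0:ℝ)..L, F' t x‖ ≤ K * N := by
    intro t ht
    have htT : t ∈ Ico 0 T := hsubC (Ico_subset_Icc_self ht)
    have c3u := c3_of_contDiffOn hL (hu.diff_x t htT)
    have hcu : ContinuousOn (u t) (Icc 0 L) := c3u.cz
    have cu1 := c3u.cp
    have cu3 := c3u.hr
    have i1 : IntervalIntegrable (fun x => A x * (-(dx L 1 (u t) x + dx L 3 (u t) x
        + u t x * dx L 1 (u t) x))) volume 0 L := by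
      apply ContinuousOn.intervalIntegrable_of_Icc hL.le; fun_prop
    have i2 : IntervalIntegrable (fun x => 1 / 2 * N ^ 2 * (A x * A (x + 3 * N ^ 2 * t)
        * A1 (x + 3 * N ^ 2 * t))) volume 0 L := by
      apply ContinuousOn.intervalIntegrable_of_Icc hL.le; fun_prop
    have i3 : IntervalIntegrable (fun x => 1 / 4 * N ^ 2 * A1 x * A (x + 3 * N ^ 2 * t) ^ 2) volume 0 L := by
      apply ContinuousOn.intervalIntegrable_of_Icc hL.le; fun_prop
    have e1 : ∫ x in (0:ℝ)..L, F' t x = (∫ x in (0:ℝ)..L, A x * (-(dx L 1 (u t) x + dx L 3 (u t) x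
        + u t x * dx L 1 (u t) x))) + ∫ x in (0:ℝ)..L, 1 / 2 * N ^ 2 * (A x * A (x + 3 * N ^ 2 * t)
        * A1 (x + 3 * N ^ 2 * t)) := by
      rw [← intervalIntegral.integral_add i1 i2]
      apply intervalIntegral.integral_congr
      intro x hx
      rw [uIcc_of_le hL.le] at hx
      have e := hu.pde t htT x hx
      have e' : ut t x = -(dx L 1 (u t) x + dx L 3 (u t) x + u t x * dx L 1 (u t) x) := by
        simp only [hut]; linarith
      simp only [hF']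
      rw [e']
    have z0 : (0:ℝ) ≤ 3 * L / 8 := by positivity
    have zL : 5 * L / 8 ≤ L := by linarith
    have e2 : ∫ x in (0:ℝ)..L, (1 / 2 * N ^ 2 * (A x * A (x + 3 * N ^ 2 * t)
        * A1 (x + 3 * N ^ 2 * t)) + 1 / 4 * N ^ 2 * A1 x * A (x + 3 * N ^ 2 * t) ^ 2) = 0 := by
      rw [ftc hL.le (G := fun x => 1 / 4 * N ^ 2 * (A x * A (x + 3 * N ^ 2 * t) ^ 2))]
      · rw [h.s0 _ (Or.inl z0), h.s0 _ (Or.inr zL)]; simp
      · intro x _
        have d1 := h.h1 x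
        have d2 := comp_x h.h1 N t x
        have d4 := (d1.mul (d2.pow 2)).const_mul (1 / 4 * N ^ 2)
        refine HasDerivAt.hasDerivWithinAt (d4.congr_deriv ?_)
        simp
        ring
      · fun_prop
    rw [intervalIntegral.integral_add i2 i3] at e2
    rw [e1, pair_ibp hL h c3u]
    have e3 : (∫ x in (0:ℝ)..L, 1 / 2 * N ^ 2 * (A x * A (x + 3 * N ^ 2 * t)
        * A1 (x + 3 * N ^ 2 * t))) = -∫ x in (0:ℝ)..L, 1 / 4 * N ^ 2 * A1 x * A (x + 3 * N ^ 2 * t) ^ 2 := by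
      linarith
    rw [e3, ← sub_eq_add_neg, Real.norm_eq_abs]
    exact static_bound hL h hCb0 hN1 (fun x => (hCb N hN1 t x).1) hcu
      (hz N hN T u hu t htT ht.2.le)
  have hmv := norm_image_sub_le_of_norm_deriv_right_le_segment hYc hYd hbd τ ⟨hτ0.le, le_rfl⟩
  rw [sub_zero, Real.norm_eq_abs] at hmv
  -- compute Y τ and Y 0
  have iA : ∀ t ∈ Icc 0 τ, IntervalIntegrable (fun x => A x * u t x) volume 0 L := by
    intro t ht
    have hcu : ContinuousOn (u t) (Icc 0 L) := (c3_of_contDiffOn hL (hu.diff_x t (hsubC ht))).cz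
    apply ContinuousOn.intervalIntegrable_of_Icc hL.le; fun_prop
  have iB : ∀ t, IntervalIntegrable (fun x => 1 / 12 * (A x * A (x + 3 * N ^ 2 * t) ^ 2)) volume 0 L := by
    intro t
    apply ContinuousOn.intervalIntegrable_of_Icc hL.le; fun_prop
  have hYτ : Y τ = ∫ x in (0:ℝ)..L, A x * u τ x := by
    simp only [hY, hF]
    rw [intervalIntegral.integral_add (iA τ ⟨hτ0.le, le_rfl⟩) (iB τ)]
    have : ∫ x in (0:ℝ)..L, 1 / 12 * (A x * A (x + 3 * N ^ 2 * τ) ^ 2) = ∫ x in (0:ℝ)..L, (0:ℝ) := by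
      apply intervalIntegral.integral_congr
      intro x _
      have e : 3 * N ^ 2 * τ = L / 4 := by rw [hτ]; field_simp; norm_num
      simp only
      rw [e]
      by_cases hx : x ≤ 3 * L / 8
      · rw [h.s0 x (Or.inl hx)]; ring
      · push Not at hx
        rw [h.s0 (x + L / 4) (Or.inr (by linarith))]; ring
    rw [this]; simp
  have hY0 : Y 0 = (∫ x in (0:ℝ)..L, A x * ap A N 0 x) + 1 / 12 * ∫ x in (0:ℝ)..L, A x ^ 3 := by
    simp only [hY, hF]
    rw [intervalIntegral.integral_add (iA 0 ⟨le_rfl, hτ0.le⟩) (iB 0),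
      intervalIntegral.integral_const_mul]
    congr 1
    · apply intervalIntegral.integral_congr
      intro x hx
      rw [uIcc_of_le hL.le] at hx
      simp only
      rw [hu.init x hx]
    · congr 1
      apply intervalIntegral.integral_congr
      intro x _
      simp; ring
  rw [hYτ, hY0] at hmv
  have e4 : K * N * τ = K * L / 12 / N := by
    rw [hτ]; field_simp
  rw [e4] at hmv
  refine le_trans (le_of_eq ?_) hmv
  congr 1
  ring



/-! ### compatibility of compactly supported data -/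

/-- the time derivatives at `t = 0` -/
noncomputable def psi (φ : ℝ → ℝ) : ℕ → ℝ → ℝ
  | 0 => φ
  | n + 1 => fun x => -(iteratedDeriv 1 (psi φ n) x + iteratedDeriv 3 (psi φ n) x
      + ∑ j : Fin (n + 1), (n.choose j : ℝ) * psi φ j x * iteratedDeriv 1 (psi φ (n - j)) x)
termination_by n => n
decreasing_by all_goals omega

lemma psi_zero (φ : ℝ → ℝ) : psi φ 0 = φ := by rw [psi]

lemma psi_succ (φ : ℝ → ℝ) (n : ℕ) : psi φ (n + 1) = fun x => -(iteratedDeriv 1 (psi φ n) x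
    + iteratedDeriv 3 (psi φ n) x
      + ∑ j : Fin (n + 1), (n.choose j : ℝ) * psi φ j x * iteratedDeriv 1 (psi φ (n - j)) x) := by
  rw [psi]

lemma iteratedDeriv_zero_off {K : Set ℝ} (hK : IsClosed K) {f : ℝ → ℝ} (hf : ∀ x, x ∉ K → f x = 0) (j : ℕ) :
    ∀ x, x ∉ K → iteratedDeriv j f x = 0 := by
  intro x hx
  have h1 : f =ᶠ[𝓝 x] fun _ => (0:ℝ) := by
    filter_upwards [hK.isOpen_compl.mem_nhds hx] with y hy
    exact hf y hy
  have h2 := h1.iteratedDeriv_eq j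
  rw [h2]
  simp [iteratedDeriv_const]

lemma psi_prop {φ : ℝ → ℝ} (hφ : ContDiff ℝ ((⊤ : ℕ∞) : WithTop ℕ∞) φ) {K : Set ℝ} (hK : IsClosed K)
    (hφK : ∀ x, x ∉ K → φ x = 0) (n : ℕ) :
    ContDiff ℝ ((⊤ : ℕ∞) : WithTop ℕ∞) (psi φ n) ∧ ∀ x, x ∉ K → psi φ n x = 0 := by
  induction n using Nat.strong_induction_on with
  | _ n ih =>
    match n with
    | 0 => rw [psi_zero]; exact ⟨hφ, hφK⟩
    | n + 1 =>
      have hsm : ∀ f : ℝ → ℝ, ContDiff ℝ ((⊤ : ℕ∞) : WithTop ℕ∞) f → ∀ j : ℕ,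
          ContDiff ℝ ((⊤ : ℕ∞) : WithTop ℕ∞) (iteratedDeriv j f) := by
        intro f hf j
        rw [iteratedDeriv_eq_iterate]
        exact ContDiff.iterate_deriv j hf
      rw [psi_succ]
      constructor
      · refine (((hsm _ (ih n (by omega)).1 1).add (hsm _ (ih n (by omega)).1 3)).add ?_).neg
        apply ContDiff.sum
        intro j _
        exact (contDiff_const.mul (ih j (by omega)).1).mul (hsm _ (ih (n - j) (by omega)).1 1)
      · intro x hx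
        simp only
        rw [iteratedDeriv_zero_off hK (ih n (by omega)).2 1 x hx,
          iteratedDeriv_zero_off hK (ih n (by omega)).2 3 x hx]
        rw [Finset.sum_eq_zero]
        · simp
        · intro j _
          rw [(ih j (by omega)).2 x hx]; ring

lemma dx_eq {L : ℝ} (hL : 0 < L) {f : ℝ → ℝ} (hf : ContDiff ℝ ((⊤ : ℕ∞) : WithTop ℕ∞) f) (j : ℕ)
    {x : ℝ} (hx : x ∈ Icc 0 L) : dx L j f x = iteratedDeriv j f x := by
  unfold dx
  apply iteratedDerivWithin_eq_iteratedDeriv (uniqueDiffOn_Icc hL) _ hx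
  exact (hf.of_le (by exact_mod_cast le_top)).contDiffAt

lemma bdry_zero (k : ℕ) (c : Coeffs) {L : ℝ} {f : ℝ → ℝ}
    (h0 : ∀ j ≤ 2, dx L j f 0 = 0) (hL' : ∀ j ≤ 2, dx L j f L = 0) : bdry k c L f = fun _ => 0 := by
  have f0 : f 0 = 0 := by simpa [dx] using h0 0 (by norm_num)
  have fL : f L = 0 := by simpa [dx] using hL' 0 (by norm_num)
  have a1 := h0 1 (by norm_num)
  have a2 := h0 2 (by norm_num)
  have b1 := hL' 1 (by norm_num)
  have b2 := hL' 2 (by norm_num)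
  unfold bdry
  split <;>
  · ext j
    fin_cases j <;> simp [f0, fL, a1, a2, b1, b2]

lemma compatible_of_support (k : ℕ) (c : Coeffs) {L : ℝ} (hL : 0 < L) {φ : ℝ → ℝ}
    (hφ : ContDiff ℝ ((⊤ : ℕ∞) : WithTop ℕ∞) φ) (hs : tsupport φ ⊆ Ioo 0 L) :
    Compatible k c L φ (fun _ _ => 0) := by
  have hK : IsClosed (tsupport φ) := isClosed_tsupport φ
  have hφK : ∀ x, x ∉ tsupport φ → φ x = 0 := fun x hx => image_eq_zero_of_notMem_tsupport hx
  have hP := psi_prop hφ hK hφK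
  have n0 : (0:ℝ) ∉ tsupport φ := fun h => lt_irrefl _ (hs h).1
  have nL : L ∉ tsupport φ := fun h => lt_irrefl _ (hs h).2
  refine ⟨psi φ, fun n => (hP n).1.contDiffOn, fun x _ => by rw [psi_zero], ?_, ?_⟩
  · intro n x hx
    rw [psi_succ]
    simp only
    rw [dx_eq hL (hP n).1 1 hx, dx_eq hL (hP n).1 3 hx, Finset.sum_range]
    congr 2
    apply Finset.sum_congr rfl
    intro j _
    rw [dx_eq hL (hP _).1 1 hx]
  · intro n
    rw [bdry_zero k c]
    · ext j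
      simp [iteratedDeriv_const]
    · intro j _
      rw [dx_eq hL (hP n).1 j ⟨le_rfl, hL.le⟩]
      exact iteratedDeriv_zero_off hK (hP n).2 j 0 n0
    · intro j _
      rw [dx_eq hL (hP n).1 j ⟨hL.le, le_rfl⟩]
      exact iteratedDeriv_zero_off hK (hP n).2 j L nL

/-- the zero function is a solution -/
lemma zero_isSolution (k : ℕ) (c : Coeffs) {L T : ℝ} :
    IsSolution k c L T (fun _ => 0) (fun _ _ => 0) (fun _ _ => 0) := by
  have hd : ∀ j x, dx L j (fun _ => (0:ℝ)) x = 0 := by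
    intro j x
    unfold dx
    rw [iteratedDerivWithin_const]
    split <;> rfl
  refine ⟨fun x _ => differentiableOn_const _, fun t _ => contDiffOn_const, ?_, ?_, ?_, ?_, ?_⟩
  · simp only [derivWithin_fun_const]
    exact continuousOn_const
  · intro j _
    simp only [hd]
    exact continuousOn_const
  · intro t _ x _
    simp [hd]
  · intro x _; rfl
  · intro t _
    exact bdry_zero k c (fun j _ => hd j 0) (fun j _ => hd j L)

lemma sobNorm_congr {s ℓ : ℝ} (hℓ : 0 ≤ ℓ) {f g : ℝ → ℝ} (h : ∀ x ∈ Icc 0 ℓ, f x = g x) :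
    sobNorm s ℓ f = sobNorm s ℓ g := by
  have : ∀ F, Extends ℓ f F ↔ Extends ℓ g F := by
    intro F
    unfold Extends
    apply forall_congr'
    intro ψ
    have e : ∫ x in (0:ℝ)..ℓ, (f x : ℂ) * ψ x = ∫ x in (0:ℝ)..ℓ, (g x : ℂ) * ψ x := by
      apply intervalIntegral.integral_congr
      intro x hx
      rw [uIcc_of_le hℓ] at hx
      simp only
      rw [h x hx]
    rw [e]
  unfold sobNorm
  simp only [this]

lemma sobNorm_zero {s ℓ : ℝ} : sobNorm s ℓ (fun _ => 0) = 0 := by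
  apply le_antisymm _ zero_le
  unfold sobNorm
  refine iInf_le_of_le 0 (iInf_le_of_le ?_ (iInf_le_of_le 0 (iInf_le_of_le ?_ ?_)))
  · intro ψ _
    simp
  · rw [map_zero]
    exact (map_zero (Lp.toTemperedDistributionCLM ℂ (volume : Measure ℝ) 2)).symm
  · simp

/-- the profile -/
lemma exists_profile {L : ℝ} (hL : 0 < L) : ∃ (A A1 A2 A3 : ℝ → ℝ) (M : ℝ),
    Profile L A A1 A2 A3 M ∧ ContDiff ℝ ((⊤ : ℕ∞) : WithTop ℕ∞) A ∧ HasCompactSupport A ∧
    tsupport A ⊆ Ioo 0 L ∧ 0 < ∫ x in (0:ℝ)..L, A x ^ 3 := by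
  let B : ContDiffBump (L / 2 : ℝ) := ⟨L / 20, L / 10, by positivity, by linarith⟩
  have hB : ContDiff ℝ ((⊤ : ℕ∞) : WithTop ℕ∞) (B : ℝ → ℝ) := B.contDiff
  have hsB : tsupport (B : ℝ → ℝ) = Metric.closedBall (L / 2) (L / 10) := B.tsupport_eq
  have hcB : HasCompactSupport (B : ℝ → ℝ) := B.hasCompactSupport
  have sm1 : ContDiff ℝ ((⊤ : ℕ∞) : WithTop ℕ∞) (deriv B) := ContDiff.iterate_deriv 1 hB
  have sm2 : ContDiff ℝ ((⊤ : ℕ∞) : WithTop ℕ∞) (deriv (deriv B)) := ContDiff.iterate_deriv 2 hB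
  have sm3 : ContDiff ℝ ((⊤ : ℕ∞) : WithTop ℕ∞) (deriv (deriv (deriv B))) := ContDiff.iterate_deriv 3 hB
  have t1 : tsupport (deriv B) ⊆ tsupport B := tsupport_deriv_subset
  have t2 : tsupport (deriv (deriv B)) ⊆ tsupport B := tsupport_deriv_subset.trans t1
  have c1 : HasCompactSupport (deriv B) := hcB.deriv
  have c2 : HasCompactSupport (deriv (deriv B)) := c1.deriv
  have c3 : HasCompactSupport (deriv (deriv (deriv B))) := c2.deriv
  obtain ⟨M0, hM0⟩ := hB.continuous.bounded_above_of_compact_support hcB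
  obtain ⟨M1, hM1⟩ := sm1.continuous.bounded_above_of_compact_support c1
  obtain ⟨M2, hM2⟩ := sm2.continuous.bounded_above_of_compact_support c2
  obtain ⟨M3, hM3⟩ := sm3.continuous.bounded_above_of_compact_support c3
  have hout : ∀ x, (x ≤ 3 * L / 8 ∨ 5 * L / 8 ≤ x) → x ∉ tsupport (B : ℝ → ℝ) := by
    intro x hx hx'
    rw [hsB, Metric.mem_closedBall, Real.dist_eq, abs_le] at hx'
    rcases hx with h | h <;> linarith [hx'.1, hx'.2]
  have dd : ∀ {f : ℝ → ℝ}, ContDiff ℝ ((⊤ : ℕ∞) : WithTop ℕ∞) f → ∀ x, HasDerivAt f (deriv f x) x := by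
    intro f hf x
    exact (hf.differentiable (by simp) x).hasDerivAt
  refine ⟨B, deriv B, deriv (deriv B), deriv (deriv (deriv B)), max (max M0 M1) (max M2 M3),
    ⟨dd hB, dd sm1, dd sm2, sm3.continuous, ?_, ?_, ?_, ?_, ?_, ?_, ?_⟩, hB, hcB, ?_, ?_⟩
  · intro x; exact (hM0 x).trans ((le_max_left _ _).trans (le_max_left _ _))
  · intro x; exact (hM1 x).trans ((le_max_right _ _).trans (le_max_left _ _))
  · intro x; exact (hM2 x).trans ((le_max_left _ _).trans (le_max_right _ _))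
  · intro x; exact (hM3 x).trans ((le_max_right _ _).trans (le_max_right _ _))
  · intro x hx; exact image_eq_zero_of_notMem_tsupport (hout x hx)
  · intro x hx; exact image_eq_zero_of_notMem_tsupport (fun h => hout x hx (t1 h))
  · intro x hx; exact image_eq_zero_of_notMem_tsupport (fun h => hout x hx (t2 h))
  · intro x hx
    rw [hsB, Metric.mem_closedBall, Real.dist_eq, abs_le] at hx
    constructor <;> linarith [hx.1, hx.2]
  · have h1 : ∫ x in (9 * L / 20)..(11 * L / 20), (B x) ^ 3 = L / 10 := by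
      rw [intervalIntegral.integral_congr (g := fun _ => (1:ℝ))]
      · simp; ring
      · intro x hx
        rw [uIcc_of_le (by linarith)] at hx
        have : B x = 1 := B.one_of_mem_closedBall (by
          rw [Metric.mem_closedBall, Real.dist_eq, abs_le]
          show -(L / 20) ≤ _ ∧ _ ≤ L / 20
          constructor <;> linarith [hx.1, hx.2])
        simp [this]
    have h2 : ∫ x in (9 * L / 20)..(11 * L / 20), (B x) ^ 3 ≤ ∫ x in (0:ℝ)..L, (B x) ^ 3 := by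
      apply intervalIntegral.integral_mono_interval (by positivity) (by linarith) (by linarith)
      · exact Eventually.of_forall fun x => by
          have : 0 ≤ B x := B.nonneg
          show 0 ≤ (B x) ^ 3
          positivity
      · exact (hB.continuous.pow 3).intervalIntegrable _ _
    rw [h1] at h2
    linarith [show 0 < L / 10 by positivity]

/-- the sequence of data and the lower bound for the solutions -/
theorem illposed_sequence (k : ℕ) (c : Coeffs) {L : ℝ} (hL : 0 < L) {s : ℝ} (hs : s < -1) :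
    ∃ (φ : ℕ → ℝ → ℝ) (t B : ℕ → ℝ) (c₀ : ℝ), 0 < c₀ ∧
      (∀ n, ContDiff ℝ ((⊤ : ℕ∞) : WithTop ℕ∞) (φ n)) ∧ (∀ n, tsupport (φ n) ⊆ Ioo 0 L) ∧
      (∀ n, 0 < t n) ∧ Tendsto t atTop (𝓝 0) ∧
      Tendsto (fun n => sobNorm s L (φ n)) atTop (𝓝 0) ∧
      ∀ n T u, IsSolution k c L T (φ n) (fun _ _ => 0) u →
        (∀ τ ∈ Ico 0 T, τ ≤ t n → ∫ x in (0:ℝ)..L, u τ x ^ 2 ≤ B n) ∧
        (t n < T → ENNReal.ofReal c₀ ≤ sobNorm s L (u (t n))) := by
  obtain ⟨A, A1, A2, A3, M, h, hA, hcA, hsA, hpos⟩ := exists_profile hL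
  obtain ⟨R, N₀, hR1, hN₀, hz⟩ := z_bound k c hL h
  obtain ⟨Cm, N₁, hCm, hN₁, hm⟩ := m_bound k c hL h
  obtain ⟨Cb, hCb0, hCb⟩ := bounds h
  obtain ⟨ψ, hψ⟩ := exists_modul A hA hcA 0
  have hψ' : ∀ x, ψ x = (A x : ℂ) := by intro x; rw [hψ]; simp
  have hψs : tsupport ψ ⊆ Ioo 0 L := by
    refine subset_trans (closure_mono ?_) hsA
    intro x hx
    rw [Function.mem_support] at hx ⊢
    intro h0
    exact hx (by rw [hψ', h0]; simp)
  obtain ⟨Cp, hCp0, hCp⟩ := pairing_le s L ψ hψs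
  set I := ∫ x in (0:ℝ)..L, A x ^ 3 with hI
  -- the pairing bound in real form
  have hpair : ∀ f : ℝ → ℝ, ENNReal.ofReal |∫ x in (0:ℝ)..L, A x * f x| ≤
      ENNReal.ofReal Cp * sobNorm s L f := by
    intro f
    have e : ∫ x in (0:ℝ)..L, (f x : ℂ) * ψ x = ((∫ x in (0:ℝ)..L, A x * f x : ℝ) : ℂ) := by
      rw [← intervalIntegral.integral_ofReal]
      apply intervalIntegral.integral_congr
      intro x _
      simp only
      rw [hψ']
      push_cast; ring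
    have := hCp f
    rw [e, ← ofReal_norm, Complex.norm_real, Real.norm_eq_abs] at this
    exact this
  -- data tends to zero
  have hdata := data_small hs hL hA hcA
  set Nn : ℕ → ℝ := fun n => 2 * Real.pi * (n + 1) with hNn
  have hNtend : Tendsto Nn atTop atTop := by
    apply Tendsto.const_mul_atTop (by positivity)
    exact tendsto_atTop_add_const_right _ _ tendsto_natCast_atTop_atTop
  have hpd : Tendsto (fun n => |∫ x in (0:ℝ)..L, A x * ap A (Nn n) 0 x|) atTop (𝓝 0) := by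
    have h1 : Tendsto (fun n => ENNReal.ofReal Cp * sobNorm s L (fun x => ap A (Nn n) 0 x)) atTop
        (𝓝 (ENNReal.ofReal Cp * 0)) := by
      apply ENNReal.Tendsto.const_mul hdata
      exact Or.inr ENNReal.ofReal_ne_top
    rw [mul_zero] at h1
    have h2 := tendsto_of_tendsto_of_tendsto_of_le_of_le tendsto_const_nhds h1 (fun _ => zero_le)
      (fun n => hpair (fun x => ap A (Nn n) 0 x))
    have h3 := (ENNReal.tendsto_toReal ENNReal.zero_ne_top).comp h2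
    refine h3.congr ?_ |>.trans (by simp)
    intro n
    simp [ENNReal.toReal_ofReal (abs_nonneg _)]
  have hCN : Tendsto (fun n => Cm / Nn n) atTop (𝓝 0) := hNtend.const_div_atTop Cm
  -- choose n₀
  have hev : ∀ᶠ n in atTop, N₀ ≤ Nn n ∧ N₁ ≤ Nn n ∧
      |∫ x in (0:ℝ)..L, A x * ap A (Nn n) 0 x| < I / 48 ∧ Cm / Nn n < I / 48 := by
    have hI' : 0 < I / 48 := by positivity
    filter_upwards [hNtend.eventually_ge_atTop N₀, hNtend.eventually_ge_atTop N₁,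
      hpd.eventually (gt_mem_nhds hI'), hCN.eventually (gt_mem_nhds hI')] with n h1 h2 h3 h4
    exact ⟨h1, h2, h3, h4⟩
  obtain ⟨n₀, hn₀⟩ := eventually_atTop.1 hev
  have hshift : Tendsto (fun n : ℕ => n + n₀) atTop atTop := tendsto_add_atTop_nat n₀
  refine ⟨fun n x => ap A (Nn (n + n₀)) 0 x, fun n => L / (12 * Nn (n + n₀) ^ 2),
    fun n => 2 * R + 2 * (Cb * Nn (n + n₀)) ^ 2 * L, I / (24 * (Cp + 1)), by positivity,
    ?_, ?_, ?_, ?_, ?_, ?_⟩
  · intro n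
    unfold ap
    have : ContDiff ℝ ((⊤ : ℕ∞) : WithTop ℕ∞) (fun x : ℝ => A (x + 3 * Nn (n + n₀) ^ 2 * 0)) :=
      hA.comp (contDiff_id.add contDiff_const)
    exact ((contDiff_const.mul this).mul (Real.contDiff_cos.comp
      ((contDiff_const.mul contDiff_id).add contDiff_const))).add
      ((contDiff_const.mul (this.pow 2)).mul (Real.contDiff_cos.comp
      (contDiff_const.mul ((contDiff_const.mul contDiff_id).add contDiff_const))))
  · intro n
    refine subset_trans (closure_mono ?_) hsA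
    intro x hx
    rw [Function.mem_support] at hx ⊢
    intro h0
    exact hx (by simp [ap, h0])
  · intro n
    have : 0 < Nn (n + n₀) := by simp only [hNn]; positivity
    positivity
  · have h1 : Tendsto (fun N : ℝ => L / (12 * N ^ 2)) atTop (𝓝 0) := by
      apply Tendsto.const_div_atTop
      apply Tendsto.const_mul_atTop (by norm_num)
      exact tendsto_pow_atTop (by norm_num)
    exact h1.comp (hNtend.comp hshift)
  · exact hdata.comp hshift
  · intro n T u hu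
    obtain ⟨g0, g1, g2, g3⟩ := hn₀ (n + n₀) (Nat.le_add_left _ _)
    set N := Nn (n + n₀) with hN
    have hN1 : 1 ≤ N := hN₀.trans g0
    have hNpos : 0 < N := by linarith
    constructor
    · intro τ hτ hτt
      have hzz := hz N g0 T u hu τ hτ hτt
      have cu : ContinuousOn (u τ) (Icc 0 L) := (c3_of_contDiffOn hL (hu.diff_x τ hτ)).cz
      have ca : ContinuousOn (fun x => ap A N τ x) (Icc 0 L) := (ap_C3 h N τ).cz
      have i1 : IntervalIntegrable (fun x => (u τ x - ap A N τ x) ^ 2) volume 0 L := by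
        apply ContinuousOn.intervalIntegrable_of_Icc hL.le; fun_prop
      have hle : ∫ x in (0:ℝ)..L, u τ x ^ 2 ≤ ∫ x in (0:ℝ)..L, (2 * (u τ x - ap A N τ x) ^ 2
          + 2 * (Cb * N) ^ 2) := by
        apply intervalIntegral.integral_mono_on hL.le
        · apply ContinuousOn.intervalIntegrable_of_Icc hL.le; fun_prop
        · exact (i1.const_mul 2).add intervalIntegrable_const
        · intro x _
          have hb := (hCb N hN1 τ x).1
          have hb2 : ap A N τ x ^ 2 ≤ (Cb * N) ^ 2 := by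
            rw [← sq_abs (ap A N τ x)]; gcongr
          nlinarith [sq_nonneg (u τ x - 2 * ap A N τ x)]
      refine hle.trans ?_
      rw [intervalIntegral.integral_add (i1.const_mul 2) intervalIntegrable_const,
        intervalIntegral.integral_const_mul, intervalIntegral.integral_const]
      simp only [smul_eq_mul, sub_zero]
      linarith
    · intro hT
      have hmm := hm N g1 T u hu hT
      have h1 : I / 24 ≤ |∫ x in (0:ℝ)..L, A x * u (L / (12 * N ^ 2)) x| := by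
        have h2 := abs_le.1 hmm
        have h3 := abs_lt.1 g2
        refine le_trans ?_ (le_abs_self _)
        linarith [h2.1, h3.1]
      have h4 := hpair (u (L / (12 * N ^ 2)))
      have h5 : ENNReal.ofReal (I / 24) ≤ ENNReal.ofReal (Cp + 1) * sobNorm s L (u (L / (12 * N ^ 2))) := by
        refine (ENNReal.ofReal_le_ofReal h1).trans (h4.trans ?_)
        gcongr
        linarith
      have h6 : ENNReal.ofReal (I / (24 * (Cp + 1))) = ENNReal.ofReal (I / 24) / ENNReal.ofReal (Cp + 1) := by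
        rw [← ENNReal.ofReal_div_of_pos (by positivity)]
        congr 1
        field_simp
      rw [h6]
      apply ENNReal.div_le_of_le_mul
      rw [mul_comm]
      exact h5

/-- failure of local well-posedness -/
theorem not_lwp (k : ℕ) (c : Coeffs) {L : ℝ} (hL : 0 < L) {s : ℝ} (hs : s < -1) :
    ¬ LocallyWellPosed k c L s := by
  intro hW
  obtain ⟨φ, t, B, c₀, hc₀, hφ, hφs, ht, htl, hdata, hmain⟩ := illposed_sequence k c hL hs
  have hzc : Compatible k c L (fun _ => 0) (fun _ _ => 0) := by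
    apply compatible_of_support k c hL contDiff_const
    have : tsupport (fun _ : ℝ => (0:ℝ)) = ∅ := by
      rw [tsupport_eq_empty_iff]; rfl
    rw [this]; exact empty_subset _
  obtain ⟨T, hT, u₀, hu₀, hcont⟩ := hW (fun _ => 0) (fun _ _ => 0) contDiffOn_const
    (fun _ => contDiff_const) hzc
  obtain ⟨δ, hδ, hδ'⟩ := hcont c₀ hc₀
  have e1 : ∀ᶠ n in atTop, sobNorm s L (φ n) < ENNReal.ofReal δ :=
    hdata.eventually (gt_mem_nhds (by simpa using hδ))
  have e2 : ∀ᶠ n in atTop, t n < T := htl.eventually (gt_mem_nhds hT)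
  obtain ⟨n, hn1, hn2⟩ := (e1.and e2).exists
  obtain ⟨T', hT', hT'T, u, hu, hblow, hclose⟩ := hδ' (φ n) (fun _ _ => 0) (hφ n).contDiffOn
    (fun _ => contDiff_const) (compatible_of_support k c hL (hφ n) (hφs n))
    (by simpa using hn1) (by
      intro j
      simp only [sub_zero]
      rw [sobNorm_zero]
      simpa using hδ)
  obtain ⟨hB, hlow⟩ := hmain n T' u hu
  have htT' : t n < T' := by
    by_contra hcon
    push Not at hcon
    obtain ⟨τ, hτ, hτB⟩ := hblow (hcon.trans_lt hn2) (B n)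
    exact absurd (hB τ hτ (hτ.2.le.trans hcon)) (not_le.2 hτB)
  have h1 := hlow htT'
  have h2 := hclose (t n) ⟨(ht n).le, htT'⟩
  have h3 : ∀ x ∈ Icc 0 L, u₀ (t n) x = 0 := by
    intro x hx
    have := unique hL hu₀ (zero_isSolution k c (L := L) (T := T)) (t n) ⟨(ht n).le, hn2⟩ x hx
    exact this.symm
  rw [sobNorm_congr hL.le (g := u (t n)) (fun x hx => by rw [h3 x hx, sub_zero])] at h2
  exact absurd h1 (not_le.2 h2)

end Pool.Agent.Helper420.KdVIll
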